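import Pool.Agent.Lib.MP_a17b09_nt.Sector

set_option autoImplicit false

open Finset

namespace Pool.Agent.Lib.MP_a17b09_nt

lemma card_mod_class (d e : ℕ) (hd : 0 < d) (he : e ∣ d) (U : Finset ℕ) (hU : ∀ x ∈ U, x < d)
    (h : ∀ x ∈ U, ∀ y ∈ U, ((d / e : ℕ) : ℤ) ∣ (x : ℤ) - y) : U.card ≤ e := by
  obtain ⟨k, rfl⟩ := he
  have he0 : 0 < e := by
    rcases Nat.eq_zero_or_pos e with h' | h'
    · subst h'; simp at hd
    · exact h'
  have hk0 : 0 < k := by
    rcases Nat.eq_zero_or_pos k with h' | h'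
    · subst h'; simp at hd
    · exact h'
  rw [Nat.mul_div_cancel_left k he0] at h
  have : U.card ≤ (range e).card := by
    apply card_le_card_of_injOn (fun x => x / k)
    · intro x hx
      have hx' := hU x hx
      simp only [coe_range, Set.mem_Iio]
      rw [Nat.div_lt_iff_lt_mul hk0]
      exact hx'
    · intro x hx y hy hxy
      simp only at hxy
      have h1 := h x hx y hy
      have h2 : x % k = y % k := by
        have : (x : ℤ) % k = y % k :=
          Int.emod_eq_emod_iff_emod_sub_eq_zero.2 (Int.emod_eq_zero_of_dvd h1)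
        exact_mod_cast this
      rw [← Nat.div_add_mod x k, ← Nat.div_add_mod y k, hxy, h2]
  rwa [card_range] at this

/-- Number of roots of a monic quadratic modulo `d`. -/
theorem roots_card (d : ℕ) (hd : 0 < d) (β γ : ℤ) (E : ℕ)
    (hE : ∀ e : ℕ, e ^ 2 ∣ d → ((e : ℤ) ^ 2) ∣ β ^ 2 - 4 * γ → e ≤ E) :
    ((range d).filter (fun x : ℕ => (d : ℤ) ∣ (x : ℤ) ^ 2 + β * x + γ)).card ≤
      E * d.divisors.card := by
  set R := (range d).filter (fun x : ℕ => (d : ℤ) ∣ (x : ℤ) ^ 2 + β * x + γ) with hR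
  rcases R.eq_empty_or_nonempty with h0 | ⟨r0, hr0⟩
  · rw [h0]; simp
  rw [hR, mem_filter, mem_range] at hr0
  obtain ⟨hr0d, hr0r⟩ := hr0
  have hdz : (0 : ℤ) < d := by exact_mod_cast hd
  -- the map to divisors
  have hmap : ∀ x ∈ R, Int.gcd ((x : ℤ) - r0) d ∈ d.divisors := by
    intro x _
    rw [Nat.mem_divisors]
    exact ⟨by exact_mod_cast Int.gcd_dvd_right ((x : ℤ) - r0) (d : ℤ), hd.ne'⟩
  rw [card_eq_sum_card_fiberwise hmap]
  calc ∑ g ∈ d.divisors, (R.filter (fun x : ℕ => Int.gcd ((x : ℤ) - r0) d = g)).card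
      ≤ ∑ _g ∈ d.divisors, E := sum_le_sum ?_
    _ = E * d.divisors.card := by rw [sum_const, smul_eq_mul, mul_comm]
  intro g hg
  set F := R.filter (fun x : ℕ => Int.gcd ((x : ℤ) - r0) d = g) with hF
  rcases F.eq_empty_or_nonempty with h0 | ⟨x0, hx0⟩
  · rw [h0]; simp
  rw [Nat.mem_divisors] at hg
  obtain ⟨⟨d', hd'⟩, -⟩ := hg
  have hg0 : 0 < g := by
    rcases Nat.eq_zero_or_pos g with h | h
    · subst h; simp at hd'; omega
    · exact h
  have hd'0 : 0 < d' := by
    rcases Nat.eq_zero_or_pos d' with h | h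
    · subst h; simp at hd'; omega
    · exact h
  -- facts
  have hfact : ∀ x ∈ F, ((g : ℤ) ∣ (x : ℤ) - r0) ∧ ((d' : ℤ) ∣ (x : ℤ) + r0 + β) := by
    intro x hx
    rw [hF, mem_filter, hR, mem_filter, mem_range] at hx
    obtain ⟨⟨hxd, hxr⟩, hxg⟩ := hx
    have h1 : (g : ℤ) ∣ (x : ℤ) - r0 := by
      rw [← hxg]; exact Int.gcd_dvd_left ((x : ℤ) - r0) (d : ℤ)
    refine ⟨h1, ?_⟩
    have hpos : 0 < Int.gcd ((x : ℤ) - r0) d := by rw [hxg]; exact hg0
    obtain ⟨k', d'', hcop, hk, hdd⟩ := Int.exists_gcd_one hpos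
    rw [hxg] at hk hdd
    have hd2 : d'' = d' := by
      have : (g : ℤ) * d'' = g * d' := by
        rw [mul_comm, ← hdd, hd']; push_cast; rfl
      exact mul_left_cancel₀ (by exact_mod_cast hg0.ne') this
    subst hd2
    have h2 : (d : ℤ) ∣ ((x : ℤ) - r0) * ((x : ℤ) + r0 + β) := by
      have e : ((x : ℤ) - r0) * ((x : ℤ) + r0 + β) =
          ((x : ℤ) ^ 2 + β * x + γ) - ((r0 : ℤ) ^ 2 + β * r0 + γ) := by ring
      rw [e]; exact dvd_sub hxr hr0r
    rw [hk, hdd] at h2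
    have h3 : (d' : ℤ) ∣ k' * ((x : ℤ) + r0 + β) := by
      have : (g : ℤ) * d' ∣ g * (k' * ((x : ℤ) + r0 + β)) := by
        have e : (g : ℤ) * (k' * ((x : ℤ) + r0 + β)) = k' * g * ((x : ℤ) + r0 + β) := by ring
        rw [e, mul_comm (g : ℤ) d']; exact h2
      exact (mul_dvd_mul_iff_left (by exact_mod_cast hg0.ne')).1 this
    have hcop' : IsCoprime (d' : ℤ) k' := (Int.isCoprime_iff_gcd_eq_one.2 hcop).symm
    exact hcop'.dvd_of_dvd_mul_left h3
  set e := Nat.gcd g d' with he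
  have heg : e ∣ g := Nat.gcd_dvd_left _ _
  have hed' : e ∣ d' := Nat.gcd_dvd_right _ _
  have he0 : 0 < e := Nat.gcd_pos_of_pos_left _ hg0
  have hed : e ∣ d := heg.trans ⟨d', hd'⟩
  have he2 : e ^ 2 ∣ d := by rw [hd', sq]; exact mul_dvd_mul heg hed'
  have hlcm : d / e = Nat.lcm g d' := by rw [Nat.lcm, ← he, hd']
  have hcard : F.card ≤ e := by
    apply card_mod_class d e hd hed F
    · intro x hx
      rw [hF, mem_filter, hR, mem_filter, mem_range] at hx
      exact hx.1.1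
    · intro x hx y hy
      rw [hlcm]
      have h1 := hfact x hx
      have h2 := hfact y hy
      have h3 : (g : ℤ) ∣ (x : ℤ) - y := by
        have := dvd_sub h1.1 h2.1
        have e : (x : ℤ) - r0 - ((y : ℤ) - r0) = x - y := by ring
        rwa [e] at this
      have h4 : (d' : ℤ) ∣ (x : ℤ) - y := by
        have := dvd_sub h1.2 h2.2
        have e : (x : ℤ) + r0 + β - ((y : ℤ) + r0 + β) = x - y := by ring
        rwa [e] at this
      have h5 : Nat.lcm g d' ∣ ((x : ℤ) - y).natAbs :=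
        Nat.lcm_dvd (Int.natCast_dvd.1 h3) (Int.natCast_dvd.1 h4)
      exact Int.natCast_dvd.2 h5
  refine hcard.trans (hE e he2 ?_)
  have h1 := hfact x0 hx0
  have h2 : (e : ℤ) ∣ (x0 : ℤ) - r0 := dvd_trans (by exact_mod_cast heg) h1.1
  have h3 : (e : ℤ) ∣ (x0 : ℤ) + r0 + β := dvd_trans (by exact_mod_cast hed') h1.2
  have h4 : (e : ℤ) ∣ 2 * r0 + β := by
    have := dvd_sub h3 h2
    have e' : (x0 : ℤ) + r0 + β - ((x0 : ℤ) - r0) = 2 * r0 + β := by ring
    rwa [e'] at this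
  have h5 : (e : ℤ) ^ 2 ∣ (2 * r0 + β) ^ 2 := pow_dvd_pow_of_dvd h4 2
  have h6 : (e : ℤ) ^ 2 ∣ (r0 : ℤ) ^ 2 + β * r0 + γ :=
    dvd_trans (by exact_mod_cast he2) hr0r
  have e' : β ^ 2 - 4 * γ = (2 * r0 + β) ^ 2 - 4 * ((r0 : ℤ) ^ 2 + β * r0 + γ) := by ring
  rw [e']
  exact dvd_sub h5 (Dvd.dvd.mul_left h6 4)

/-- counting in an interval -/
theorem count_interval (d X : ℕ) (hd : 0 < d) (β γ : ℤ) :
    ((Finset.Icc 1 X).filter (fun x : ℕ => (d : ℤ) ∣ (x : ℤ) ^ 2 + β * x + γ)).card ≤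
      (X / d + 1) * ((range d).filter (fun x : ℕ => (d : ℤ) ∣ (x : ℤ) ^ 2 + β * x + γ)).card := by
  rw [mul_comm, ← card_range (X / d + 1), ← card_product]
  apply card_le_card_of_injOn (fun x => (x % d, x / d))
  · intro x hx
    rw [mem_coe, mem_filter, Finset.mem_Icc] at hx
    simp only [coe_product, Set.mem_prod, mem_coe, mem_filter, mem_range]
    refine ⟨⟨Nat.mod_lt _ hd, ?_⟩, Nat.lt_succ_of_le (Nat.div_le_div_right hx.1.2)⟩
    have h1 : (d : ℤ) ∣ (x : ℤ) - (x % d : ℕ) := by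
      push_cast
      exact Int.dvd_self_sub_emod
    have e : ((x % d : ℕ) : ℤ) ^ 2 + β * ((x % d : ℕ) : ℤ) + γ = ((x : ℤ) ^ 2 + β * x + γ) -
        ((x : ℤ) - (x % d : ℕ)) * ((x : ℤ) + (x % d : ℕ) + β) := by ring
    rw [e]
    exact dvd_sub hx.2 (Dvd.dvd.mul_right h1 _)
  · intro x _ y _ hxy
    simp only [Prod.mk.injEq] at hxy
    rw [← Nat.div_add_mod x d, ← Nat.div_add_mod y d, hxy.1, hxy.2]

lemma card_divisors_le_two_mul (n : ℕ) (hn : 0 < n) (B : ℕ) (hB : n ≤ B ^ 2) :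
    n.divisors.card ≤ 2 * ((Finset.Icc 1 B).filter (fun d => d ∣ n)).card := by
  have hsplit : n.divisors ⊆ (Finset.Icc 1 B).filter (fun d => d ∣ n) ∪
      ((Finset.Icc 1 B).filter (fun d => d ∣ n)).image (fun d => n / d) := by
    intro d hd
    rw [Nat.mem_divisors] at hd
    have hd0 : 0 < d := Nat.pos_of_dvd_of_pos hd.1 hn
    rw [mem_union]
    rcases le_or_gt d B with h | h
    · left
      rw [mem_filter, Finset.mem_Icc]
      exact ⟨⟨hd0, h⟩, hd.1⟩
    · right
      rw [mem_image]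
      obtain ⟨k, hk⟩ := hd.1
      have hk0 : 0 < k := by
        rcases Nat.eq_zero_or_pos k with h' | h'
        · subst h'; simp at hk; omega
        · exact h'
      refine ⟨k, ?_, ?_⟩
      · rw [mem_filter, Finset.mem_Icc]
        refine ⟨⟨hk0, ?_⟩, ⟨d, by rw [hk]; ring⟩⟩
        by_contra hcon
        push Not at hcon
        have : B ^ 2 < d * k := by
          rw [sq]
          exact Nat.mul_lt_mul'' h hcon
        rw [← hk] at this
        omega
      · rw [hk]; exact Nat.mul_div_cancel d hk0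
  calc n.divisors.card ≤ ((Finset.Icc 1 B).filter (fun d => d ∣ n) ∪
        ((Finset.Icc 1 B).filter (fun d => d ∣ n)).image (fun d => n / d)).card :=
          card_le_card hsplit
    _ ≤ ((Finset.Icc 1 B).filter (fun d => d ∣ n)).card +
        (((Finset.Icc 1 B).filter (fun d => d ∣ n)).image (fun d => n / d)).card := card_union_le _ _
    _ ≤ ((Finset.Icc 1 B).filter (fun d => d ∣ n)).card +
        ((Finset.Icc 1 B).filter (fun d => d ∣ n)).card := by
          exact Nat.add_le_add_left card_image_le _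
    _ = _ := by ring

lemma sum_inv_le (n : ℕ) : ∑ k ∈ Finset.Icc 1 n, (1 : ℝ) / k ≤ 1 + Real.log n := by
  have h := harmonic_le_one_add_log n
  rw [harmonic_eq_sum_Icc] at h
  push_cast at h
  simpa [one_div] using h

lemma sum_tau_div_le (n : ℕ) :
    ∑ d ∈ Finset.Icc 1 n, ((d.divisors.card : ℝ) / d) ≤ (1 + Real.log n) ^ 2 := by
  have h1 : ∀ d ∈ Finset.Icc 1 n, ((d.divisors.card : ℝ) / d) =
      ∑ p ∈ d.divisorsAntidiagonal, (1 : ℝ) / (p.1 * p.2) := by
    intro d _
    have : ∀ p ∈ d.divisorsAntidiagonal, (1 : ℝ) / (p.1 * p.2) = 1 / d := by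
      intro p hp
      rw [Nat.mem_divisorsAntidiagonal] at hp
      rw [← hp.1]; push_cast; rfl
    have hc : d.divisorsAntidiagonal.card = d.divisors.card := by
      rw [← Nat.map_div_right_divisors, card_map]
    rw [sum_congr rfl this, sum_const, hc, nsmul_eq_mul]
    ring
  rw [sum_congr rfl h1, ← sum_biUnion]
  · have hsub : (Finset.Icc 1 n).biUnion (fun d => d.divisorsAntidiagonal) ⊆
        Finset.Icc 1 n ×ˢ Finset.Icc 1 n := by
      intro p hp
      rw [mem_biUnion] at hp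
      obtain ⟨d, hd, hp⟩ := hp
      rw [Nat.mem_divisorsAntidiagonal] at hp
      rw [Finset.mem_Icc] at hd
      rw [mem_product, Finset.mem_Icc, Finset.mem_Icc]
      have h1 : 0 < p.1 := by
        rcases Nat.eq_zero_or_pos p.1 with h | h
        · rw [h] at hp; simp at hp; omega
        · exact h
      have h2 : 0 < p.2 := by
        rcases Nat.eq_zero_or_pos p.2 with h | h
        · rw [h] at hp; simp at hp; omega
        · exact h
      refine ⟨⟨h1, ?_⟩, ⟨h2, ?_⟩⟩
      · calc p.1 ≤ p.1 * p.2 := Nat.le_mul_of_pos_right _ h2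
          _ ≤ n := by rw [hp.1]; exact hd.2
      · calc p.2 ≤ p.1 * p.2 := Nat.le_mul_of_pos_left _ h1
          _ ≤ n := by rw [hp.1]; exact hd.2
    calc ∑ p ∈ (Finset.Icc 1 n).biUnion (fun d => d.divisorsAntidiagonal), (1 : ℝ) / (p.1 * p.2)
        ≤ ∑ p ∈ Finset.Icc 1 n ×ˢ Finset.Icc 1 n, (1 : ℝ) / (p.1 * p.2) :=
          sum_le_sum_of_subset_of_nonneg hsub (fun _ _ _ => by positivity)
      _ = (∑ k ∈ Finset.Icc 1 n, (1 : ℝ) / k) * (∑ k ∈ Finset.Icc 1 n, (1 : ℝ) / k) := by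
          rw [sum_product, sum_mul_sum]
          apply sum_congr rfl
          intro x _
          apply sum_congr rfl
          intro y _
          rw [div_mul_div_comm, one_mul]
      _ ≤ (1 + Real.log n) * (1 + Real.log n) := by
          have := sum_inv_le n
          have h0 : 0 ≤ ∑ k ∈ Finset.Icc 1 n, (1 : ℝ) / k := sum_nonneg (fun _ _ => by positivity)
          gcongr
      _ = (1 + Real.log n) ^ 2 := by ring
  · intro d _ d' _ hdd
    simp only [Function.onFun]
    rw [Finset.disjoint_left]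
    intro p hp hp'
    rw [Nat.mem_divisorsAntidiagonal] at hp hp'
    exact hdd (hp.1.symm.trans hp'.1)

end Pool.Agent.Lib.MP_a17b09_nt
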