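import Pool.Agent.Lib.MP_a17b09_nt.Q.Tau

set_option autoImplicit false

open Finset

namespace Pool.Agent.Lib.MP_a17b09_nt

/-- sector points -/
def GP (b c : ℤ) (X : ℕ) : Finset (ℕ × ℕ) :=
  (Finset.Icc 1 X ×ˢ Finset.Icc 0 X).filter (fun u =>
    Nat.Coprime u.1 u.2 ∧ 8 * BB b c * (u.2 : ℤ) ≤ (u.1 : ℤ))

/-- atypical points -/
def AT (b c : ℤ) (X T : ℕ) : Finset (ℕ × ℕ) :=
  (GP b c X).filter (fun u => T < (nrm b c ((u.1 : ℤ), (u.2 : ℤ))).natAbs.divisors.card)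

lemma GP_sec {b c : ℤ} {X : ℕ} {u : ℕ × ℕ} (hu : u ∈ GP b c X) :
    Sec b c ((u.1 : ℤ), (u.2 : ℤ)) ∧ u.1 ≤ X := by
  unfold GP at hu
  rw [mem_filter, mem_product, Finset.mem_Icc, Finset.mem_Icc] at hu
  refine ⟨⟨?_, ?_, hu.2.2⟩, hu.1.1.2⟩
  · simp only; exact_mod_cast hu.1.1.1
  · simp only; positivity

lemma row_count {b c : ℤ} (hD : ¬ IsSquare (b ^ 2 - 4 * c)) (X d y : ℕ) (hd : 0 < d) :
    ((Finset.Icc 1 X).filter (fun x : ℕ => Nat.Coprime x y ∧
      (d : ℤ) ∣ nrm b c ((x : ℤ), (y : ℤ)))).card ≤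
      (X / d + 1) * ((b ^ 2 - 4 * c).natAbs * d.divisors.card) := by
  rcases ((Finset.Icc 1 X).filter (fun x : ℕ => Nat.Coprime x y ∧
      (d : ℤ) ∣ nrm b c ((x : ℤ), (y : ℤ)))).eq_empty_or_nonempty with h0 | ⟨x0, hx0⟩
  · rw [h0]; simp
  rw [mem_filter] at hx0
  obtain ⟨-, hcop, hdvd⟩ := hx0
  -- d is coprime to y
  have hdy : Nat.Coprime d y := by
    rw [Nat.coprime_iff_gcd_eq_one]
    by_contra hne
    obtain ⟨p, hp, hpd⟩ := Nat.exists_prime_and_dvd hne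
    have h1 : p ∣ d := hpd.trans (Nat.gcd_dvd_left _ _)
    have h2 : p ∣ y := hpd.trans (Nat.gcd_dvd_right _ _)
    have h3 : (p : ℤ) ∣ (x0 : ℤ) ^ 2 := by
      have e : (x0 : ℤ) ^ 2 = nrm b c ((x0 : ℤ), (y : ℤ)) - (y : ℤ) * (b * x0 + c * y) := by
        simp only [nrm]; ring
      rw [e]
      apply dvd_sub
      · exact dvd_trans (by exact_mod_cast h1) hdvd
      · exact Dvd.dvd.mul_right (by exact_mod_cast h2) _
    have h4 : p ∣ x0 := by
      have : (p : ℤ) ∣ (x0 : ℤ) := (Nat.prime_iff_prime_int.1 hp).dvd_of_dvd_pow h3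
      exact_mod_cast this
    have := Nat.dvd_gcd h4 h2
    rw [Nat.coprime_iff_gcd_eq_one.1 hcop] at this
    exact hp.one_lt.ne' (Nat.dvd_one.1 this)
  have hsub : ((Finset.Icc 1 X).filter (fun x : ℕ => Nat.Coprime x y ∧
      (d : ℤ) ∣ nrm b c ((x : ℤ), (y : ℤ)))) ⊆ (Finset.Icc 1 X).filter (fun x : ℕ =>
        (d : ℤ) ∣ (x : ℤ) ^ 2 + (b * y) * x + c * y ^ 2) := by
    intro x hx
    rw [mem_filter] at hx ⊢
    refine ⟨hx.1, ?_⟩
    have e : (x : ℤ) ^ 2 + (b * y) * x + c * y ^ 2 = nrm b c ((x : ℤ), (y : ℤ)) := by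
      simp only [nrm]; ring
    rw [e]; exact hx.2.2
  refine (card_le_card hsub).trans ((count_interval d X hd _ _).trans ?_)
  apply Nat.mul_le_mul_left
  apply roots_card d hd
  intro e he1 he2
  have hey : Nat.Coprime e y := by
    apply Nat.Coprime.coprime_dvd_left _ hdy
    exact (dvd_pow_self e (by norm_num)).trans he1
  have h1 : (e : ℤ) ^ 2 ∣ (y : ℤ) ^ 2 * (b ^ 2 - 4 * c) := by
    have e' : (y : ℤ) ^ 2 * (b ^ 2 - 4 * c) = (b * y) ^ 2 - 4 * (c * y ^ 2) := by ring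
    rw [e']; exact he2
  have h2 : IsCoprime ((e : ℤ) ^ 2) ((y : ℤ) ^ 2) :=
    (Nat.isCoprime_iff_coprime.2 hey).pow
  have h3 : (e : ℤ) ^ 2 ∣ (b ^ 2 - 4 * c) := h2.dvd_of_dvd_mul_left h1
  have hD0 : (b ^ 2 - 4 * c) ≠ 0 := by
    intro h; exact hD ⟨0, by rw [h]; rfl⟩
  have h4 : e ^ 2 ≤ (b ^ 2 - 4 * c).natAbs := by
    have h5 : (e ^ 2) ∣ (b ^ 2 - 4 * c).natAbs := by
      have := Int.natAbs_dvd_natAbs.2 h3
      rw [Int.natAbs_pow, Int.natAbs_natCast] at this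
      exact this
    exact Nat.le_of_dvd (Int.natAbs_pos.2 hD0) h5
  calc e ≤ e ^ 2 := by
        rw [sq]
        rcases Nat.eq_zero_or_pos e with h | h
        · subst h; simp
        · exact Nat.le_mul_of_pos_left e h
    _ ≤ _ := h4

theorem atyp_count {b c : ℤ} (hD : ¬ IsSquare (b ^ 2 - 4 * c)) (X T : ℕ) (hX : 0 < X) :
    ((AT b c X T).card : ℝ) * T ≤
      12 * (b ^ 2 - 4 * c).natAbs * (X : ℝ) ^ 2 * (1 + Real.log (2 * X)) ^ 2 := by
  set E := (b ^ 2 - 4 * c).natAbs with hE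
  have h1 : (AT b c X T).card * T ≤
      ∑ u ∈ GP b c X, (nrm b c ((u.1 : ℤ), (u.2 : ℤ))).natAbs.divisors.card := by
    calc (AT b c X T).card * T = ∑ _u ∈ AT b c X T, T := by rw [sum_const, smul_eq_mul]
      _ ≤ ∑ u ∈ AT b c X T, (nrm b c ((u.1 : ℤ), (u.2 : ℤ))).natAbs.divisors.card := by
        apply sum_le_sum
        intro u hu
        unfold AT at hu
        rw [mem_filter] at hu
        exact hu.2.le
      _ ≤ _ := sum_le_sum_of_subset (filter_subset _ _)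
  have h2 : ∀ u ∈ GP b c X, (nrm b c ((u.1 : ℤ), (u.2 : ℤ))).natAbs.divisors.card ≤
      2 * ((Finset.Icc 1 (2 * X)).filter (fun d : ℕ => (d : ℤ) ∣
        nrm b c ((u.1 : ℤ), (u.2 : ℤ)))).card := by
    intro u hu
    obtain ⟨hs, hux⟩ := GP_sec hu
    have hpos := nrm_pos hs
    have hb := (nrm_bounds hs).2
    simp only at hb
    have h3 := card_divisors_le_two_mul (nrm b c ((u.1 : ℤ), (u.2 : ℤ))).natAbs
      (Int.natAbs_pos.2 hpos.ne') (2 * X) (by
        zify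
        rw [abs_of_pos hpos]
        have : (u.1 : ℤ) ^ 2 ≤ (X : ℤ) ^ 2 := by
          have : (u.1 : ℤ) ≤ X := by exact_mod_cast hux
          gcongr
        have h0 : (0 : ℤ) ≤ (X : ℤ) ^ 2 := by positivity
        nlinarith)
    refine h3.trans ?_
    apply Nat.mul_le_mul_left
    apply card_le_card
    intro d hd
    rw [mem_filter] at hd ⊢
    exact ⟨hd.1, Int.natCast_dvd.2 hd.2⟩
  have h3 : ∑ u ∈ GP b c X, (nrm b c ((u.1 : ℤ), (u.2 : ℤ))).natAbs.divisors.card ≤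
      2 * ∑ d ∈ Finset.Icc 1 (2 * X), ((GP b c X).filter (fun u => (d : ℤ) ∣
        nrm b c ((u.1 : ℤ), (u.2 : ℤ)))).card := by
    calc ∑ u ∈ GP b c X, (nrm b c ((u.1 : ℤ), (u.2 : ℤ))).natAbs.divisors.card
        ≤ ∑ u ∈ GP b c X, 2 * ((Finset.Icc 1 (2 * X)).filter (fun d : ℕ => (d : ℤ) ∣
        nrm b c ((u.1 : ℤ), (u.2 : ℤ)))).card := sum_le_sum h2
      _ = 2 * ∑ u ∈ GP b c X, ((Finset.Icc 1 (2 * X)).filter (fun d : ℕ => (d : ℤ) ∣
        nrm b c ((u.1 : ℤ), (u.2 : ℤ)))).card := by rw [mul_sum]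
      _ = _ := by
        congr 1
        simp only [card_filter]
        rw [sum_comm]
  have h4 : ∀ d ∈ Finset.Icc 1 (2 * X), ((GP b c X).filter (fun u => (d : ℤ) ∣
        nrm b c ((u.1 : ℤ), (u.2 : ℤ)))).card ≤ (X + 1) * ((X / d + 1) * (E * d.divisors.card)) := by
    intro d hd
    have hd0 : 0 < d := (Finset.mem_Icc.1 hd).1
    have hmap : ∀ u ∈ (GP b c X).filter (fun u => (d : ℤ) ∣
        nrm b c ((u.1 : ℤ), (u.2 : ℤ))), u.2 ∈ Finset.Icc 0 X := by
      intro u hu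
      unfold GP at hu
      rw [mem_filter, mem_filter, mem_product] at hu
      exact hu.1.1.2
    rw [card_eq_sum_card_fiberwise hmap]
    calc ∑ y ∈ Finset.Icc 0 X, (((GP b c X).filter (fun u => (d : ℤ) ∣
        nrm b c ((u.1 : ℤ), (u.2 : ℤ)))).filter (fun u => u.2 = y)).card
        ≤ ∑ y ∈ Finset.Icc 0 X, (X / d + 1) * (E * d.divisors.card) := by
          apply sum_le_sum
          intro y _
          refine le_trans ?_ (row_count hD X d y hd0)
          apply card_le_card_of_injOn (fun u => u.1)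
          · intro u hu
            rw [mem_coe, mem_filter, mem_filter] at hu
            obtain ⟨⟨hG, hdv⟩, hy⟩ := hu
            unfold GP at hG
            rw [mem_filter, mem_product] at hG
            rw [mem_coe, mem_filter]
            rw [hy] at hG hdv
            exact ⟨hG.1.1, hG.2.1, hdv⟩
          · intro u hu u' hu' huu
            rw [mem_coe, mem_filter] at hu hu'
            exact Prod.ext huu (hu.2.trans hu'.2.symm)
      _ = (X + 1) * ((X / d + 1) * (E * d.divisors.card)) := by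
          rw [sum_const, Nat.card_Icc, smul_eq_mul]
          rfl
  have hXr : (1 : ℝ) ≤ X := by exact_mod_cast hX
  have h5 : ((∑ d ∈ Finset.Icc 1 (2 * X), ((GP b c X).filter (fun u => (d : ℤ) ∣
        nrm b c ((u.1 : ℤ), (u.2 : ℤ)))).card : ℕ) : ℝ) ≤
      6 * E * (X : ℝ) ^ 2 * (1 + Real.log (2 * X)) ^ 2 := by
    rw [Nat.cast_sum]
    calc ∑ d ∈ Finset.Icc 1 (2 * X), ((((GP b c X).filter (fun u => (d : ℤ) ∣
        nrm b c ((u.1 : ℤ), (u.2 : ℤ)))).card : ℕ) : ℝ)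
        ≤ ∑ d ∈ Finset.Icc 1 (2 * X), 6 * E * (X : ℝ) ^ 2 * ((d.divisors.card : ℝ) / d) := by
          apply sum_le_sum
          intro d hd
          have hd0 : 0 < d := (Finset.mem_Icc.1 hd).1
          have hd2 := (Finset.mem_Icc.1 hd).2
          have hdr : (1 : ℝ) ≤ d := by exact_mod_cast hd0
          have hdr2 : (d : ℝ) ≤ 2 * X := by exact_mod_cast hd2
          have h := h4 d hd
          have h' : ((((GP b c X).filter (fun u => (d : ℤ) ∣
            nrm b c ((u.1 : ℤ), (u.2 : ℤ)))).card : ℕ) : ℝ) ≤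
              ((X : ℝ) + 1) * ((((X / d : ℕ) : ℝ) + 1) * (E * d.divisors.card)) := by
            exact_mod_cast h
          refine h'.trans ?_
          have hq : (((X / d : ℕ) : ℝ) + 1) ≤ 3 * X / d := by
            have h6 : ((X / d : ℕ) : ℝ) ≤ (X : ℝ) / d := Nat.cast_div_le
            have h7 : (1 : ℝ) ≤ 2 * X / d := by
              rw [le_div_iff₀ (by linarith)]; linarith
            calc (((X / d : ℕ) : ℝ) + 1) ≤ (X : ℝ) / d + 2 * X / d := by linarith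
              _ = 3 * X / d := by ring
          calc ((X : ℝ) + 1) * ((((X / d : ℕ) : ℝ) + 1) * (E * d.divisors.card))
              ≤ (2 * X) * ((3 * X / d) * (E * d.divisors.card)) := by
                gcongr; linarith
            _ = 6 * E * (X : ℝ) ^ 2 * ((d.divisors.card : ℝ) / d) := by ring
      _ = 6 * E * (X : ℝ) ^ 2 * ∑ d ∈ Finset.Icc 1 (2 * X), ((d.divisors.card : ℝ) / d) := by
          rw [mul_sum]
      _ ≤ 6 * E * (X : ℝ) ^ 2 * (1 + Real.log (2 * X)) ^ 2 := by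
          have := sum_tau_div_le (2 * X)
          push_cast at this
          gcongr
  calc ((AT b c X T).card : ℝ) * T = (((AT b c X T).card * T : ℕ) : ℝ) := by push_cast; rfl
    _ ≤ ((2 * ∑ d ∈ Finset.Icc 1 (2 * X), ((GP b c X).filter (fun u => (d : ℤ) ∣
        nrm b c ((u.1 : ℤ), (u.2 : ℤ)))).card : ℕ) : ℝ) := by exact_mod_cast h1.trans h3
    _ ≤ 2 * (6 * E * (X : ℝ) ^ 2 * (1 + Real.log (2 * X)) ^ 2) := by
        rw [Nat.cast_mul, Nat.cast_ofNat]
        gcongr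
    _ = _ := by ring

end Pool.Agent.Lib.MP_a17b09_nt
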