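import Pool.Agent.Lib.MP_a17b09_nt.Q.Fib

set_option autoImplicit false

open Finset

namespace Pool.Agent.Lib.MP_a17b09_nt

/-- number of indices near a given vector -/
lemma near_card {b c : ℤ} {L : ℕ} {K : ℝ} (hK : 0 ≤ K) (u : ℤ × ℤ) (U : Finset ℕ)
    (h : ∀ j ∈ U, |(L : ℝ) * ang b c u - j| ≤ K) : (U.card : ℝ) ≤ 2 * K + 1 := by
  apply card_close U (2 * K) (by positivity)
  intro j hj j' hj'
  have h1 := abs_le.1 (h j hj)
  have h2 := abs_le.1 (h j' hj')
  linarith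

/-- grouping by the vector -/
lemma group_card {b c : ℤ} {L : ℕ} {K : ℝ} (hK : 0 ≤ K) (w : ℕ → ℤ × ℤ) (J : Finset ℕ)
    (V : Finset (ℤ × ℤ)) (hV : ∀ j ∈ J, w j ∈ V)
    (h : ∀ j ∈ J, |(L : ℝ) * ang b c (w j) - j| ≤ K) : (J.card : ℝ) ≤ V.card * (2 * K + 1) := by
  classical
  have h1 := card_eq_sum_card_fiberwise (f := w) (s := J) (t := V) (fun j hj => hV j hj)
  rw [h1, Nat.cast_sum]
  calc ∑ x ∈ V, (((J.filter (fun j => w j = x)).card : ℕ) : ℝ) ≤ ∑ _x ∈ V, (2 * K + 1) := by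
        apply sum_le_sum
        intro x _
        apply near_card hK x
        intro j hj
        rw [mem_filter] at hj
        rw [← hj.2]
        exact h j hj.1
    _ = V.card * (2 * K + 1) := by rw [sum_const, nsmul_eq_mul]

structure Good (b c : ℤ) (L : ℕ) (K : ℝ) (X : ℕ) (j : ℕ) (u : ℤ × ℤ) : Prop where
  sec : Sec b c u
  cop : IsCoprime u.1 u.2
  le : u.1 ≤ X
  near : |(L : ℝ) * ang b c u - j| ≤ K

lemma mem_AT_of {b c : ℤ} {X T : ℕ} {u : ℤ × ℤ} (hs : Sec b c u) (hc : IsCoprime u.1 u.2)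
    (hX : u.1 ≤ X) (hT : T < (nrm b c u).natAbs.divisors.card) :
    (u.1.toNat, u.2.toNat) ∈ AT b c X T := by
  obtain ⟨h1, h2, h3⟩ := hs
  have e1 : ((u.1.toNat : ℕ) : ℤ) = u.1 := Int.toNat_of_nonneg h1.le
  have e2 : ((u.2.toNat : ℕ) : ℤ) = u.2 := Int.toNat_of_nonneg h2
  unfold AT GP
  rw [mem_filter, mem_filter, mem_product, Finset.mem_Icc, Finset.mem_Icc]
  simp only [e1, e2]
  refine ⟨⟨⟨⟨by omega, by omega⟩, by omega, ?_⟩, ?_, h3⟩, hT⟩
  · have hB := one_le_BB b c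
    have : u.2 ≤ u.1 := by nlinarith
    omega
  · rw [← Nat.isCoprime_iff_coprime, e1, e2]; exact hc

lemma group_AT {b c : ℤ} {L : ℕ} {K : ℝ} {X T : ℕ} (hK : 0 ≤ K) (w : ℕ → ℤ × ℤ) (J : Finset ℕ)
    (hG : ∀ j ∈ J, Good b c L K X j (w j))
    (hT : ∀ j ∈ J, T < (nrm b c (w j)).natAbs.divisors.card) :
    (J.card : ℝ) ≤ (AT b c X T).card * (2 * K + 1) := by
  classical
  set V : Finset (ℤ × ℤ) := (AT b c X T).image (fun p => ((p.1 : ℤ), (p.2 : ℤ))) with hV
  have h1 := group_card hK w J V (by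
    intro j hj
    have hg := hG j hj
    rw [hV, mem_image]
    refine ⟨_, mem_AT_of hg.sec hg.cop hg.le (hT j hj), ?_⟩
    apply Prod.ext
    · exact Int.toNat_of_nonneg hg.sec.1.le
    · exact Int.toNat_of_nonneg hg.sec.2.1) (fun j hj => (hG j hj).near)
  refine h1.trans ?_
  have h2 : ((V.card : ℕ) : ℝ) ≤ (AT b c X T).card := by
    exact_mod_cast card_image_le
  gcongr

/-- the general counting theorem -/
theorem gen_count {b c : ℤ} {L : ℕ} {K : ℝ} (hK : 0 ≤ K) (X T Dm : ℕ)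
    (bad : Finset ℕ) (u v : ℕ → ℤ × ℤ) (hu : ∀ j ∈ bad, Good b c L K X j (u j))
    (hv : ∀ j ∈ bad, Good b c L K X j (v j))
    (hd : ∀ j ∈ bad, 0 < det (u j) (v j) ∧ det (u j) (v j) ≤ Dm)
    (Z : Finset (ℕ × ℕ))
    (hZ : ∀ j ∈ bad, ((lab b c (u j) (v j)).toNat, (det (u j) (v j)).toNat) ∈ Z) :
    (bad.card : ℝ) ≤ (2 * K + 1) * (2 * (AT b c X T).card + 6 * Dm ^ 2 * T ^ 2 * Z.card) := by
  classical
  set J1 := bad.filter (fun j => T < (nrm b c (u j)).natAbs.divisors.card) with hJ1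
  set J2 := bad.filter (fun j => T < (nrm b c (v j)).natAbs.divisors.card) with hJ2
  set J3 := bad.filter (fun j => (nrm b c (u j)).natAbs.divisors.card ≤ T ∧
    (nrm b c (v j)).natAbs.divisors.card ≤ T) with hJ3
  have hcov : bad ⊆ J1 ∪ J2 ∪ J3 := by
    intro j hj
    rw [mem_union, mem_union, hJ1, hJ2, hJ3, mem_filter, mem_filter, mem_filter]
    by_cases h1 : T < (nrm b c (u j)).natAbs.divisors.card
    · exact Or.inl (Or.inl ⟨hj, h1⟩)
    · by_cases h2 : T < (nrm b c (v j)).natAbs.divisors.card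
      · exact Or.inl (Or.inr ⟨hj, h2⟩)
      · exact Or.inr ⟨hj, not_lt.1 h1, not_lt.1 h2⟩
  have hc1 : bad.card ≤ J1.card + J2.card + J3.card := by
    have h1 := card_le_card hcov
    have h2 := card_union_le (J1 ∪ J2) J3
    have h3 := card_union_le J1 J2
    omega
  have b1 : (J1.card : ℝ) ≤ (AT b c X T).card * (2 * K + 1) :=
    group_AT hK u J1 (fun j hj => hu j (mem_filter.1 hj).1) (fun j hj => (mem_filter.1 hj).2)
  have b2 : (J2.card : ℝ) ≤ (AT b c X T).card * (2 * K + 1) :=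
    group_AT hK v J2 (fun j hj => hv j (mem_filter.1 hj).1) (fun j hj => (mem_filter.1 hj).2)
  -- typical part
  set G : ℕ × ℕ → ℤ := fun z => (z.1 : ℤ) ^ 2 + b * z.1 * z.2 + c * (z.2 : ℤ) ^ 2 with hG
  set Z' := Z.filter (fun z => (G z).natAbs.divisors.card ≤ T ^ 2 ∧ 0 < z.2 ∧ z.2 ≤ Dm) with hZ'
  set W : Finset (Σ _ : ℕ × ℕ, ℕ) := Z'.sigma (fun z => (G z).natAbs.divisors) with hW
  have hWcard : W.card ≤ Z.card * T ^ 2 := by
    rw [hW, card_sigma]
    calc ∑ z ∈ Z', (G z).natAbs.divisors.card ≤ ∑ _z ∈ Z', T ^ 2 := by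
          apply sum_le_sum
          intro z hz
          exact (mem_filter.1 hz).2.1
      _ = Z'.card * T ^ 2 := by rw [sum_const, smul_eq_mul]
      _ ≤ Z.card * T ^ 2 := Nat.mul_le_mul_right _ (card_le_card (filter_subset _ _))
  set key : ℕ → (Σ _ : ℕ × ℕ, ℕ) := fun j =>
    ⟨((lab b c (u j) (v j)).toNat, (det (u j) (v j)).toNat), (nrm b c (u j)).natAbs⟩ with hkey
  have hlabpos : ∀ j ∈ bad, 0 < lab b c (u j) (v j) := fun j hj =>
    lab_pos (hu j hj).sec (hv j hj).sec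
  have hGeq : ∀ j ∈ bad, G ((lab b c (u j) (v j)).toNat, (det (u j) (v j)).toNat) =
      nrm b c (u j) * nrm b c (v j) := by
    intro j hj
    rw [nrm_mul_nrm, hG]
    simp only
    rw [Int.toNat_of_nonneg (hlabpos j hj).le, Int.toNat_of_nonneg (hd j hj).1.le]
  have hmap : ∀ j ∈ J3, key j ∈ W := by
    intro j hj
    rw [hJ3, mem_filter] at hj
    obtain ⟨hjb, ht1, ht2⟩ := hj
    have hnu := nrm_pos (hu j hjb).sec
    have hnv := nrm_pos (hv j hjb).sec
    rw [hW, hkey, mem_sigma]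
    simp only
    rw [hZ', mem_filter, hGeq j hjb, Int.natAbs_mul]
    refine ⟨⟨hZ j hjb, ?_, ?_, ?_⟩, ?_⟩
    · calc ((nrm b c (u j)).natAbs * (nrm b c (v j)).natAbs).divisors.card
          ≤ (nrm b c (u j)).natAbs.divisors.card * (nrm b c (v j)).natAbs.divisors.card := by
            rw [Nat.divisors_mul]
            exact card_mul_le
        _ ≤ T * T := Nat.mul_le_mul ht1 ht2
        _ = T ^ 2 := by ring
    · have := (hd j hjb).1
      simp only
      omega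
    · have := (hd j hjb).2
      simp only
      omega
    · rw [Nat.mem_divisors]
      exact ⟨dvd_mul_right _ _, Nat.mul_ne_zero (Int.natAbs_ne_zero.2 hnu.ne')
        (Int.natAbs_ne_zero.2 hnv.ne')⟩
  have hfib : ∀ κ ∈ W, (((J3.filter (fun j => key j = κ)).card : ℕ) : ℝ) ≤
      6 * Dm ^ 2 * (2 * K + 1) := by
    intro κ hκ
    rcases (J3.filter (fun j => key j = κ)).eq_empty_or_nonempty with h0 | ⟨j0, hj0⟩
    · rw [h0]; simp; positivity
    have hsub : ∀ j ∈ J3.filter (fun j => key j = κ), j ∈ bad ∧ key j = κ := by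
      intro j hj
      rw [mem_filter, hJ3, mem_filter] at hj
      exact ⟨hj.1.1, hj.2⟩
    obtain ⟨hj0b, hj0k⟩ := hsub j0 hj0
    set V := (J3.filter (fun j => key j = κ)).image u with hV
    have h1 := group_card (b := b) (c := c) (L := L) hK u (J3.filter (fun j => key j = κ)) V
      (fun j hj => mem_image_of_mem u hj) (fun j hj => (hu j (hsub j hj).1).near)
    refine h1.trans ?_
    have h2 : ((V.card : ℕ) : ℤ) ≤ 6 * (det (u j0) (v j0)) ^ 2 := by
      apply fiber_card (hd j0 hj0b).1 (lab b c (u j0) (v j0)) (nrm b c (u j0)) V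
      intro w hw
      rw [hV, mem_image] at hw
      obtain ⟨j, hj, rfl⟩ := hw
      obtain ⟨hjb, hjk⟩ := hsub j hj
      rw [← hj0k, hkey] at hjk
      simp only [Sigma.mk.injEq, Prod.mk.injEq, heq_eq_eq] at hjk
      have a1 := hlabpos j hjb
      have a2 := hlabpos j0 hj0b
      have a3 := (hd j hjb).1
      have a4 := (hd j0 hj0b).1
      have a5 := nrm_pos (hu j hjb).sec
      have a6 := nrm_pos (hu j0 hj0b).sec
      refine ⟨(hu j hjb).sec, by omega, v j, by omega, by omega⟩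
    have h3 : ((V.card : ℕ) : ℝ) ≤ 6 * (Dm : ℝ) ^ 2 := by
      have h4 : ((V.card : ℕ) : ℤ) ≤ 6 * (Dm : ℤ) ^ 2 := by
        refine h2.trans ?_
        have := (hd j0 hj0b).1
        have := (hd j0 hj0b).2
        gcongr
      exact_mod_cast h4
    gcongr
  have b3 : (J3.card : ℝ) ≤ (Z.card * T ^ 2 : ℕ) * (6 * Dm ^ 2 * (2 * K + 1)) := by
    have h1 := card_eq_sum_card_fiberwise (f := key) (s := J3) (t := W) (fun j hj => hmap j hj)
    rw [h1, Nat.cast_sum]
    calc ∑ x ∈ W, (((J3.filter (fun j => key j = x)).card : ℕ) : ℝ)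
        ≤ ∑ _x ∈ W, (6 * (Dm : ℝ) ^ 2 * (2 * K + 1)) := sum_le_sum hfib
      _ = W.card * (6 * (Dm : ℝ) ^ 2 * (2 * K + 1)) := by rw [sum_const, nsmul_eq_mul]
      _ ≤ _ := by
        have : ((W.card : ℕ) : ℝ) ≤ ((Z.card * T ^ 2 : ℕ) : ℝ) := by exact_mod_cast hWcard
        gcongr
  have hc2 : (bad.card : ℝ) ≤ J1.card + J2.card + J3.card := by exact_mod_cast hc1
  calc (bad.card : ℝ) ≤ J1.card + J2.card + J3.card := hc2
    _ ≤ (AT b c X T).card * (2 * K + 1) + (AT b c X T).card * (2 * K + 1) +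
        (Z.card * T ^ 2 : ℕ) * (6 * Dm ^ 2 * (2 * K + 1)) := by linarith
    _ = _ := by push_cast; ring

end Pool.Agent.Lib.MP_a17b09_nt
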