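import Pool.Agent.Lib.MP_a17b09_nt.Chain
import Pool.Agent.Lib.MP_a17b09_nt.Count
import Pool.Agent.Lib.MP_a17b09_nt.Unpop

set_option autoImplicit false

open Finset Filter

namespace Pool.Agent.Lib.MP_a17b09_nt

/-- window at scale `i`, restricted to the vectors satisfying `S` -/
def Wn (S : ℤ × ℤ → Prop) (b c : ℤ) (i : ℕ) (Xm : ℤ) (j : ℕ) (u : ℤ × ℤ) : Prop :=
  S u ∧ Win b c (4 ^ i) Xm j u

def Pp (S : ℤ × ℤ → Prop) (b c : ℤ) (i : ℕ) (X0 : ℤ) (j : ℕ) : Prop :=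
  ∃ u : ℤ × ℤ, S u ∧ 0 < u.1 ∧ u.1 ≤ X0 ∧ (j : ℝ) ≤ ((4 ^ i : ℕ) : ℝ) * ang b c u ∧
    ((4 ^ i : ℕ) : ℝ) * ang b c u < j + 1

def Mn (P : Set ℕ) (S : ℤ × ℤ → Prop) (b c : ℤ) (i : ℕ) (Xm : ℤ) (j : ℕ) : Prop :=
  ∀ u v : ℤ × ℤ, Wn S b c i Xm j u → Wn S b c i Xm j v → col P b c u = col P b c v

def Nc (P : Set ℕ) (S : ℤ × ℤ → Prop) (b c : ℤ) (Xf : ℕ → ℤ) (i j : ℕ) : Prop :=
  Mn P S b c i (Xf (i + 1)) j ∧ Pp S b c i (Xf i) j

open Classical in
noncomputable def cS (P : Set ℕ) (S : ℤ × ℤ → Prop) (b c : ℤ) (Xf : ℕ → ℤ) (i j : ℕ) : ℤ :=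
  if ∃ u : ℤ × ℤ, Wn S b c i (Xf (i + 1)) j u ∧ col P b c u = 1 then 1 else -1

noncomputable def idx (b c : ℤ) (i : ℕ) (u : ℤ × ℤ) : ℕ := ⌊((4 ^ i : ℕ) : ℝ) * ang b c u⌋₊

lemma cS_eq {P : Set ℕ} {S : ℤ × ℤ → Prop} {b c : ℤ} {Xf : ℕ → ℤ} {i j : ℕ}
    (hM : Mn P S b c i (Xf (i + 1)) j) {u : ℤ × ℤ} (hu : Wn S b c i (Xf (i + 1)) j u) :
    cS P S b c Xf i j = col P b c u := by
  unfold cS
  split_ifs with h
  · obtain ⟨v, hv, hv1⟩ := h
    rw [hM u v hu hv, hv1]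
  · rcases col_eq_or P b c u with h1 | h1
    · exact absurd ⟨u, hu, h1⟩ h
    · exact h1.symm

lemma cS_succ {P : Set ℕ} {S : ℤ × ℤ → Prop} {b c : ℤ} {Xf : ℕ → ℤ} (hXf : Monotone Xf) {i j : ℕ}
    (h0 : Nc P S b c Xf i j) (h1 : Nc P S b c Xf i (j + 1)) :
    cS P S b c Xf i (j + 1) = cS P S b c Xf i j := by
  obtain ⟨u, k0, k1, k2, k3, k4⟩ := h1.2
  have hx := k2.trans (hXf (Nat.le_succ i))
  have hw1 : Wn S b c i (Xf (i + 1)) (j + 1) u := ⟨k0, k1, hx, k3, by linarith⟩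
  have hw0 : Wn S b c i (Xf (i + 1)) j u := ⟨k0, k1, hx, by push_cast at k3 ⊢; linarith,
    by push_cast at k4 ⊢; linarith⟩
  rw [cS_eq h0.1 hw0, cS_eq h1.1 hw1]

lemma four_pow_succ (i : ℕ) : ((4 ^ (i + 1) : ℕ) : ℝ) = 4 * ((4 ^ i : ℕ) : ℝ) := by
  push_cast; ring

lemma div4_le (j : ℕ) : ((j / 4 : ℕ) : ℝ) * 4 ≤ j := by
  exact_mod_cast Nat.div_mul_le_self j 4

lemma lt_div4 (j : ℕ) : (j : ℝ) + 1 ≤ (((j / 4 : ℕ) : ℝ) + 1) * 4 := by
  have : j + 1 ≤ (j / 4 + 1) * 4 := by omega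
  exact_mod_cast this

lemma cS_link {P : Set ℕ} {S : ℤ × ℤ → Prop} {b c : ℤ} {Xf : ℕ → ℤ} (hXf : Monotone Xf)
    {i j : ℕ} (h1 : Nc P S b c Xf (i + 1) j) (h0 : Nc P S b c Xf i (j / 4)) :
    cS P S b c Xf (i + 1) j = cS P S b c Xf i (j / 4) := by
  obtain ⟨u, k0, k1, k2, k3, k4⟩ := h1.2
  have hx := k2.trans (hXf (Nat.le_succ (i + 1)))
  have hw1 : Wn S b c (i + 1) (Xf (i + 1 + 1)) j u := ⟨k0, k1, hx, k3, by linarith⟩
  have hw0 : Wn S b c i (Xf (i + 1)) (j / 4) u := by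
    refine ⟨k0, k1, k2, ?_, ?_⟩
    · rw [four_pow_succ] at k3
      have := div4_le j
      linarith
    · rw [four_pow_succ] at k4
      have := lt_div4 j
      linarith
  rw [cS_eq h0.1 hw0, cS_eq h1.1 hw1]

lemma idx_div4 (b c : ℤ) (i : ℕ) (u : ℤ × ℤ) : idx b c (i + 1) u / 4 = idx b c i u := by
  unfold idx
  rw [four_pow_succ]
  have h := Nat.floor_div_natCast (4 * ((4 ^ i : ℕ) : ℝ) * ang b c u) 4
  rw [← h]
  congr 1
  push_cast
  ring

lemma idx_spec {b c : ℤ} {i : ℕ} {u : ℤ × ℤ} (hu : 0 ≤ ang b c u) :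
    ((idx b c i u : ℕ) : ℝ) ≤ ((4 ^ i : ℕ) : ℝ) * ang b c u ∧
      ((4 ^ i : ℕ) : ℝ) * ang b c u < (idx b c i u : ℕ) + 1 :=
  ⟨Nat.floor_le (by positivity), Nat.lt_floor_add_one _⟩

lemma col_eq_cS {P : Set ℕ} {S : ℤ × ℤ → Prop} {b c : ℤ} {Xf : ℕ → ℤ} (hXf : Monotone Xf)
    {z : ℤ × ℤ} (hS : S z) (hz : 0 < z.1) (ha : 0 ≤ ang b c z) (i0 : ℕ) :
    ∀ n : ℕ, z.1 ≤ Xf (i0 + n + 1) → (∀ i, i0 ≤ i → i ≤ i0 + n → Nc P S b c Xf i (idx b c i z)) →
      col P b c z = cS P S b c Xf i0 (idx b c i0 z) := by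
  have key : ∀ n : ℕ, (∀ i, i0 ≤ i → i ≤ i0 + n → Nc P S b c Xf i (idx b c i z)) →
      cS P S b c Xf (i0 + n) (idx b c (i0 + n) z) = cS P S b c Xf i0 (idx b c i0 z) := by
    intro n
    induction n with
    | zero => intro _; rfl
    | succ n ih =>
      intro h
      rw [← ih (fun i hi hi' => h i hi (by omega))]
      have h1 := h (i0 + n + 1) (by omega) (by omega)
      have h0 := h (i0 + n) (by omega) (by omega)
      rw [← idx_div4] at h0
      have := cS_link hXf h1 h0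
      rw [idx_div4] at this
      exact this
  intro n hzn h
  rw [← key n h]
  have hi := idx_spec (b := b) (c := c) (i := i0 + n) ha
  symm
  apply cS_eq (h (i0 + n) (by omega) le_rfl).1
  exact ⟨hS, hz, hzn, hi.1, by linarith [hi.2]⟩

/-- number of indices considered at scale `i` -/
noncomputable def Mx (b c : ℤ) (i : ℕ) : ℕ := ⌊((4 ^ i : ℕ) : ℝ) * (a0 b c / 2)⌋₊ + 1

open Classical in
noncomputable def badF (P : Set ℕ) (S : ℤ × ℤ → Prop) (b c : ℤ) (Xf : ℕ → ℤ) (i : ℕ) : Finset ℕ :=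
  (range (Mx b c i)).filter (fun j => ¬ Nc P S b c Xf i j)

lemma card_close (U : Finset ℕ) (r : ℝ) (hr : 0 ≤ r)
    (h : ∀ j ∈ U, ∀ j' ∈ U, (j' : ℝ) - j ≤ r) : (U.card : ℝ) ≤ r + 1 := by
  rcases U.eq_empty_or_nonempty with rfl | hne
  · simp; linarith
  · have hsub : U ⊆ Finset.Icc (U.min' hne) (U.max' hne) := by
      intro x hx
      rw [Finset.mem_Icc]
      exact ⟨U.min'_le x hx, U.le_max' x hx⟩
    have hc := card_le_card hsub
    rw [Nat.card_Icc] at hc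
    have h1 := h _ (U.min'_mem hne) _ (U.max'_mem hne)
    have hle : U.min' hne ≤ U.max' hne := U.min'_le _ (U.max'_mem hne)
    have hc' : (U.card : ℝ) ≤ (U.max' hne : ℝ) + 1 - (U.min' hne : ℝ) := by
      have : U.card + U.min' hne ≤ U.max' hne + 1 := by omega
      have : (U.card : ℝ) + (U.min' hne : ℝ) ≤ (U.max' hne : ℝ) + 1 := by exact_mod_cast this
      linarith
    linarith

/-- Rigidity: if the bad windows are summable then colours are locally constant on `S`. -/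
theorem rig {P : Set ℕ} {S : ℤ × ℤ → Prop} {b c : ℤ} (hD : ¬ IsSquare (b ^ 2 - 4 * c))
    (hSm : ∀ u v : ℤ × ℤ, Sec b c u → Sec b c v → S u → S v → S (mulp b c u v))
    (Xf : ℕ → ℤ) (hXf : Monotone Xf) (hX0 : 0 ≤ Xf 0)
    (hXg : ∀ h : ℕ, ∃ e : ℕ, ∀ i, h * Xf i ≤ Xf (i + e))
    (hsum : Summable fun i : ℕ => ((badF P S b c Xf i).card : ℝ) / 4 ^ i) :
    ∃ ε : ℝ, 0 < ε ∧ ∀ w w' : ℤ × ℤ, Sec b c w → Sec b c w' → S w → S w' →
      ang b c w ≤ a0 b c / 4 → ang b c w' ≤ a0 b c / 4 → |ang b c w - ang b c w'| ≤ ε →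
      col P b c w = col P b c w' := by
  classical
  have ha0 := a0_pos b c
  set τ : ℕ → ℝ := fun i => ((badF P S b c Xf i).card : ℝ) / 4 ^ i with hτ
  have hτ0 : ∀ i, 0 ≤ τ i := fun i => by rw [hτ]; positivity
  -- Cauchy criterion
  have hcauchy : ∀ η : ℝ, 0 < η → ∃ N, ∀ m ≥ N, ∀ n, ∑ i ∈ Finset.Ico m n, τ i ≤ η := by
    intro η hη
    have h := hsum.hasSum.tendsto_sum_nat
    have h2 := Metric.tendsto_atTop.1 h (η / 2) (by linarith)
    obtain ⟨N, hN⟩ := h2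
    refine ⟨N, ?_⟩
    intro m hm n
    rcases lt_or_ge n m with hmn | hmn
    · rw [Finset.Ico_eq_empty (by omega), Finset.sum_empty]; exact hη.le
    · rw [Finset.sum_Ico_eq_sub _ hmn]
      have h1 := hN m hm
      have h3 := hN n (le_trans hm hmn)
      rw [Real.dist_eq] at h1 h3
      have := abs_lt.1 h1
      have := abs_lt.1 h3
      linarith
  obtain ⟨i0, hi0⟩ := hcauchy (a0 b c / 200) (by positivity)
  refine ⟨1 / 4 ^ i0, by positivity, ?_⟩
  intro w w' hw hw' hSw hSw' haw haw' hdiff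
  by_contra hcol
  obtain ⟨e, he⟩ := hXg (2 * (w.1 + w'.1)).toNat
  have hhpos : 0 ≤ 2 * (w.1 + w'.1) := by linarith [hw.1, hw'.1]
  have he' : ∀ i, 2 * (w.1 + w'.1) * Xf i ≤ Xf (i + e) := by
    intro i
    have := he i
    rwa [Int.toNat_of_nonneg hhpos] at this
  obtain ⟨N1, hN1⟩ := hcauchy (a0 b c / (200 * 4 ^ e)) (by positivity)
  obtain ⟨N2, hN2⟩ := hcauchy (a0 b c / 200) (by positivity)
  -- choose i2
  obtain ⟨i2, hi2a, hi2b, hi2c, hi2d⟩ : ∃ i2 : ℕ, i0 ≤ i2 ∧ N1 ≤ i2 ∧ N2 ≤ i2 ∧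
      200 ≤ (4 : ℝ) ^ i2 * a0 b c := by
    have ht : Tendsto (fun n : ℕ => (4 : ℝ) ^ n * a0 b c) atTop atTop :=
      (tendsto_pow_atTop_atTop_of_one_lt (by norm_num)).atTop_mul_const ha0
    obtain ⟨n, hn⟩ := ((ht.eventually_ge_atTop 200).and (eventually_ge_atTop (i0 + N1 + N2))).exists
    exact ⟨n, by omega, by omega, by omega, hn.1⟩
  set M : ℕ := ⌊(4 : ℝ) ^ i2 * (a0 b c / 4)⌋₊ with hM
  set i1 := i2 + e with hi1
  -- choose u
  have hex : ∀ j, Nc P S b c Xf i2 j → ∃ u : ℤ × ℤ, S u ∧ 0 < u.1 ∧ u.1 ≤ Xf i2 ∧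
      (j : ℝ) ≤ ((4 ^ i2 : ℕ) : ℝ) * ang b c u ∧ ((4 ^ i2 : ℕ) : ℝ) * ang b c u < j + 1 :=
    fun j hj => hj.2
  choose! u hu using hex
  have hfour : ((4 ^ i2 : ℕ) : ℝ) = (4 : ℝ) ^ i2 := by push_cast; rfl
  have hfourpos : (0 : ℝ) < (4 : ℝ) ^ i2 := by positivity
  -- facts on u j
  have hsec : ∀ j, j < M → Nc P S b c Xf i2 j → Sec b c (u j) ∧ ang b c (u j) ≤ a0 b c / 4 := by
    intro j hj hn
    obtain ⟨-, h1, h2, h3, h4⟩ := hu j hn
    rw [hfour] at h3 h4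
    have hj1 : (j : ℝ) + 1 ≤ (4 : ℝ) ^ i2 * (a0 b c / 4) := by
      have : ((j + 1 : ℕ) : ℝ) ≤ M := by exact_mod_cast hj
      push_cast at this
      exact this.trans (Nat.floor_le (by positivity))
    have ha : ang b c (u j) ≤ a0 b c / 4 := by
      have : (4 : ℝ) ^ i2 * ang b c (u j) ≤ (4 : ℝ) ^ i2 * (a0 b c / 4) := by linarith
      exact le_of_mul_le_mul_left this hfourpos
    have hb : 0 ≤ ang b c (u j) := by
      have : 0 ≤ (4 : ℝ) ^ i2 * ang b c (u j) := le_trans (by positivity) h3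
      exact nonneg_of_mul_nonneg_right this hfourpos
    exact ⟨sec_of_ang h1 hb (by linarith), ha⟩
  -- the fibre bound
  have hfib : ∀ κ : ℤ × ℤ, Sec b c κ → ∀ i l : ℕ,
      (((range M).filter (fun j => Nc P S b c Xf i2 j ∧ idx b c i (mulp b c (u j) κ) = l)).card : ℝ)
        ≤ (4 : ℝ) ^ i2 / 4 ^ i + 2 := by
    intro κ hκ i l
    have h := card_close ((range M).filter (fun j => Nc P S b c Xf i2 j ∧
      idx b c i (mulp b c (u j) κ) = l)) ((4 : ℝ) ^ i2 / 4 ^ i + 1) (by positivity) (by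
        intro j hj j' hj'
        rw [mem_filter, mem_range] at hj hj'
        obtain ⟨hjM, hjn, hjl⟩ := hj
        obtain ⟨hjM', hjn', hjl'⟩ := hj'
        obtain ⟨hs, -⟩ := hsec j hjM hjn
        obtain ⟨hs', -⟩ := hsec j' hjM' hjn'
        obtain ⟨-, -, -, h3, h4⟩ := hu j hjn
        obtain ⟨-, -, -, h3', h4'⟩ := hu j' hjn'
        rw [hfour] at h3 h4 h3' h4'
        have ha1 := ang_mulp hs hκ
        have ha1' := ang_mulp hs' hκ
        have hn1 := ang_nonneg hs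
        have hn1' := ang_nonneg hs'
        have hnκ := ang_nonneg hκ
        have hi := idx_spec (b := b) (c := c) (i := i) (u := mulp b c (u j) κ) (by rw [ha1]; positivity)
        have hi' := idx_spec (b := b) (c := c) (i := i) (u := mulp b c (u j') κ) (by rw [ha1']; positivity)
        rw [hjl, ha1] at hi
        rw [hjl', ha1'] at hi'
        have hf : ((4 ^ i : ℕ) : ℝ) = (4 : ℝ) ^ i := by push_cast; rfl
        rw [hf] at hi hi'
        have hfp : (0 : ℝ) < (4 : ℝ) ^ i := by positivity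
        have hd : (4 : ℝ) ^ i * (ang b c (u j') - ang b c (u j)) ≤ 1 := by
          nlinarith [hi.1, hi'.2]
        have hd2 : ang b c (u j') - ang b c (u j) ≤ 1 / (4 : ℝ) ^ i := by
          rw [le_div_iff₀ hfp]; linarith
        have hd3 : (4 : ℝ) ^ i2 * (ang b c (u j') - ang b c (u j)) ≤ (4 : ℝ) ^ i2 / 4 ^ i := by
          calc (4 : ℝ) ^ i2 * (ang b c (u j') - ang b c (u j)) ≤ (4 : ℝ) ^ i2 * (1 / (4 : ℝ) ^ i) := by
                gcongr
            _ = (4 : ℝ) ^ i2 / 4 ^ i := by ring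
        nlinarith)
    linarith
  -- the sets
  set A : (ℤ × ℤ) → ℕ → Finset ℕ := fun κ i =>
    (range M).filter (fun j => Nc P S b c Xf i2 j ∧ idx b c i (mulp b c (u j) κ) ∈ badF P S b c Xf i)
    with hA
  have hAcard : ∀ κ : ℤ × ℤ, Sec b c κ → ∀ i : ℕ,
      ((A κ i).card : ℝ) ≤ (badF P S b c Xf i).card * ((4 : ℝ) ^ i2 / 4 ^ i + 2) := by
    intro κ hκ i
    have hsub : A κ i ⊆ (badF P S b c Xf i).biUnion (fun l => (range M).filter (fun j =>
        Nc P S b c Xf i2 j ∧ idx b c i (mulp b c (u j) κ) = l)) := by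
      intro j hj
      rw [hA, mem_filter] at hj
      rw [mem_biUnion]
      exact ⟨_, hj.2.2, by rw [mem_filter]; exact ⟨hj.1, hj.2.1, rfl⟩⟩
    have h1 := (card_le_card hsub).trans card_biUnion_le
    have h2 : ((A κ i).card : ℝ) ≤ ∑ l ∈ badF P S b c Xf i, (((range M).filter (fun j =>
        Nc P S b c Xf i2 j ∧ idx b c i (mulp b c (u j) κ) = l)).card : ℝ) := by
      exact_mod_cast h1
    refine h2.trans ?_
    calc ∑ l ∈ badF P S b c Xf i, (((range M).filter (fun j =>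
        Nc P S b c Xf i2 j ∧ idx b c i (mulp b c (u j) κ) = l)).card : ℝ)
        ≤ ∑ l ∈ badF P S b c Xf i, ((4 : ℝ) ^ i2 / 4 ^ i + 2) := sum_le_sum (fun l _ => hfib κ hκ i l)
      _ = (badF P S b c Xf i).card * ((4 : ℝ) ^ i2 / 4 ^ i + 2) := by
        rw [sum_const, nsmul_eq_mul]
  -- covering
  have hcover : range M ⊆ badF P S b c Xf i2 ∪
      (Finset.Icc i0 i1).biUnion (fun i => A w i ∪ A w' i) := by
    intro j hj
    rw [mem_range] at hj
    rw [mem_union]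
    by_cases hn : Nc P S b c Xf i2 j
    · right
      by_contra hcon
      rw [mem_biUnion] at hcon
      push Not at hcon
      obtain ⟨hs, hang⟩ := hsec j hj hn
      obtain ⟨hSu, hu1, hu2, -, -⟩ := hu j hn
      have main : ∀ κ : ℤ × ℤ, Sec b c κ → S κ → ang b c κ ≤ a0 b c / 4 → κ.1 ≤ w.1 + w'.1 →
          (∀ i ∈ Finset.Icc i0 i1, j ∉ A κ i) →
          (∀ i, i0 ≤ i → i ≤ i1 → Nc P S b c Xf i (idx b c i (mulp b c (u j) κ))) ∧
          col P b c (mulp b c (u j) κ) = cS P S b c Xf i0 (idx b c i0 (mulp b c (u j) κ)) := by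
        intro κ hκ hSκ haκ hκ1 hnot
        have hangm := ang_mulp hs hκ
        have hnn : 0 ≤ ang b c (mulp b c (u j) κ) := by
          rw [hangm]; have := ang_nonneg hs; have := ang_nonneg hκ; positivity
        have hnc : ∀ i, i0 ≤ i → i ≤ i1 → Nc P S b c Xf i (idx b c i (mulp b c (u j) κ)) := by
          intro i h1 h2
          by_contra hc
          apply hnot i (Finset.mem_Icc.2 ⟨h1, h2⟩)
          rw [hA, mem_filter, mem_range]
          refine ⟨hj, hn, ?_⟩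
          unfold badF
          rw [mem_filter, mem_range]
          refine ⟨?_, hc⟩
          unfold Mx idx
          rw [Nat.lt_succ_iff]
          apply Nat.floor_le_floor
          rw [hangm]
          gcongr
          linarith
        refine ⟨hnc, ?_⟩
        have hm := mulp_fst_bounds hs hκ
        have hi10 : i0 + (i1 - i0) = i1 := by omega
        apply col_eq_cS hXf (hSm _ _ hs hκ hSu hSκ) hm.1 hnn i0 (i1 - i0)
        · rw [hi10]
          have hXi2 : 0 ≤ Xf i2 := hX0.trans (hXf (Nat.zero_le _))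
          calc (mulp b c (u j) κ).1 ≤ 2 * ((u j).1 * κ.1) := hm.2
            _ ≤ 2 * (Xf i2 * (w.1 + w'.1)) := by
              have := hκ.1
              gcongr
            _ = 2 * (w.1 + w'.1) * Xf i2 := by ring
            _ ≤ Xf (i2 + e) := he' i2
            _ ≤ Xf (i1 + 1) := hXf (by omega)
        · intro i h1 h2
          exact hnc i h1 (by omega)
      obtain ⟨n1, c1⟩ := main w hw hSw haw (by linarith [hw'.1]) (fun i hi hc => hcon i hi
        (mem_union.2 (Or.inl hc)))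
      obtain ⟨n2, c2⟩ := main w' hw' hSw' haw' (by linarith [hw.1]) (fun i hi hc => hcon i hi
        (mem_union.2 (Or.inr hc)))
      -- compare the indices at scale i0
      have hz := ang_mulp hs hw
      have hz' := ang_mulp hs hw'
      have hnn : 0 ≤ ang b c (mulp b c (u j) w) := by
        rw [hz]; have := ang_nonneg hs; have := ang_nonneg hw; positivity
      have hnn' : 0 ≤ ang b c (mulp b c (u j) w') := by
        rw [hz']; have := ang_nonneg hs; have := ang_nonneg hw'; positivity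
      have s1 := idx_spec (i := i0) hnn
      have s2 := idx_spec (i := i0) hnn'
      have hf : ((4 ^ i0 : ℕ) : ℝ) = (4 : ℝ) ^ i0 := by push_cast; rfl
      rw [hf, hz] at s1
      rw [hf, hz'] at s2
      have hfp : (0 : ℝ) < (4 : ℝ) ^ i0 := by positivity
      have hdd := abs_le.1 hdiff
      have d1 : (4 : ℝ) ^ i0 * (ang b c w - ang b c w') ≤ 1 := by
        calc (4 : ℝ) ^ i0 * (ang b c w - ang b c w') ≤ (4 : ℝ) ^ i0 * (1 / 4 ^ i0) := by
              gcongr; exact hdd.2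
          _ = 1 := by field_simp
      have d2 : (4 : ℝ) ^ i0 * (ang b c w' - ang b c w) ≤ 1 := by
        calc (4 : ℝ) ^ i0 * (ang b c w' - ang b c w) ≤ (4 : ℝ) ^ i0 * (1 / 4 ^ i0) := by
              gcongr; linarith [hdd.1]
          _ = 1 := by field_simp
      set J := idx b c i0 (mulp b c (u j) w) with hJ
      set J' := idx b c i0 (mulp b c (u j) w') with hJ'
      have k1 : (J : ℝ) < J' + 2 := by nlinarith [s1.1, s2.2]
      have k2 : (J' : ℝ) < J + 2 := by nlinarith [s2.1, s1.2]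
      have k1' : J < J' + 2 := by exact_mod_cast k1
      have k2' : J' < J + 2 := by exact_mod_cast k2
      have hnJ : Nc P S b c Xf i0 J := n1 i0 le_rfl (by omega)
      have hnJ' : Nc P S b c Xf i0 J' := n2 i0 le_rfl (by omega)
      have heq : cS P S b c Xf i0 J = cS P S b c Xf i0 J' := by
        rcases Nat.lt_trichotomy J J' with h | h | h
        · have e1 : J' = J + 1 := by omega
          rw [e1] at hnJ' ⊢
          exact (cS_succ hXf hnJ hnJ').symm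
        · rw [h]
        · have e1 : J = J' + 1 := by omega
          rw [e1] at hnJ ⊢
          exact cS_succ hXf hnJ' hnJ
      apply hcol
      rw [heq, ← c2, col_mulp P hD hs.ne_zero hw.ne_zero, col_mulp P hD hs.ne_zero hw'.ne_zero] at c1
      have hne : col P b c (u j) ≠ 0 := by
        rcases col_eq_or P b c (u j) with h | h <;> rw [h] <;> norm_num
      exact mul_left_cancel₀ hne c1
    · left
      unfold badF
      rw [mem_filter, mem_range]
      refine ⟨?_, hn⟩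
      unfold Mx
      have : M ≤ ⌊((4 ^ i2 : ℕ) : ℝ) * (a0 b c / 2)⌋₊ := by
        rw [hM, hfour]
        apply Nat.floor_le_floor
        gcongr
        linarith
      omega
  -- counting
  have hcount := (card_le_card hcover).trans (card_union_le _ _)
  rw [card_range] at hcount
  have hc2 : (((Finset.Icc i0 i1).biUnion (fun i => A w i ∪ A w' i)).card : ℝ) ≤
      ∑ i ∈ Finset.Icc i0 i1, 2 * ((badF P S b c Xf i).card * ((4 : ℝ) ^ i2 / 4 ^ i + 2)) := by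
    have h1 : ((Finset.Icc i0 i1).biUnion (fun i => A w i ∪ A w' i)).card ≤
        ∑ i ∈ Finset.Icc i0 i1, (A w i ∪ A w' i).card := card_biUnion_le
    have h2 : (((Finset.Icc i0 i1).biUnion (fun i => A w i ∪ A w' i)).card : ℝ) ≤
        ∑ i ∈ Finset.Icc i0 i1, ((A w i ∪ A w' i).card : ℝ) := by exact_mod_cast h1
    refine h2.trans (sum_le_sum ?_)
    intro i _
    have h3 : ((A w i ∪ A w' i).card : ℝ) ≤ (A w i).card + (A w' i).card := by
      exact_mod_cast card_union_le _ _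
    have h4 := hAcard w hw i
    have h5 := hAcard w' hw' i
    linarith
  have hterm : ∀ i, i ≤ i2 → ((badF P S b c Xf i).card : ℝ) * ((4 : ℝ) ^ i2 / 4 ^ i + 2) ≤
      3 * (4 : ℝ) ^ i2 * τ i := by
    intro i hi
    have hfp : (0 : ℝ) < (4 : ℝ) ^ i := by positivity
    have h1 : (1 : ℝ) ≤ (4 : ℝ) ^ i2 / 4 ^ i := by
      rw [le_div_iff₀ hfp, one_mul]
      exact pow_le_pow_right₀ (by norm_num) hi
    calc ((badF P S b c Xf i).card : ℝ) * ((4 : ℝ) ^ i2 / 4 ^ i + 2) ≤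
        ((badF P S b c Xf i).card : ℝ) * (3 * ((4 : ℝ) ^ i2 / 4 ^ i)) := by gcongr; linarith
      _ = 3 * (4 : ℝ) ^ i2 * τ i := by rw [hτ]; ring
  have hterm2 : ∀ i, i2 < i → i ≤ i1 → ((badF P S b c Xf i).card : ℝ) *
      ((4 : ℝ) ^ i2 / 4 ^ i + 2) ≤ 3 * 4 ^ e * (4 : ℝ) ^ i2 * τ i := by
    intro i hi hi'
    have hfp : (0 : ℝ) < (4 : ℝ) ^ i := by positivity
    have h1 : (4 : ℝ) ^ i2 / 4 ^ i ≤ 1 := by
      rw [div_le_one hfp]
      exact pow_le_pow_right₀ (by norm_num) hi.le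
    have h2 : (4 : ℝ) ^ i ≤ 4 ^ e * 4 ^ i2 := by
      rw [← pow_add]
      exact pow_le_pow_right₀ (by norm_num) (by omega)
    calc ((badF P S b c Xf i).card : ℝ) * ((4 : ℝ) ^ i2 / 4 ^ i + 2) ≤
        ((badF P S b c Xf i).card : ℝ) * 3 := by gcongr; linarith
      _ = 3 * (4 : ℝ) ^ i * τ i := by rw [hτ]; field_simp
      _ ≤ 3 * (4 ^ e * 4 ^ i2) * τ i := by gcongr
      _ = 3 * 4 ^ e * (4 : ℝ) ^ i2 * τ i := by ring
  have hsplit : Finset.Icc i0 i1 = Finset.Ico i0 (i2 + 1) ∪ Finset.Ico (i2 + 1) (i1 + 1) := by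
    ext x
    simp only [Finset.mem_Icc, mem_union, Finset.mem_Ico]
    omega
  have hdisj : Disjoint (Finset.Ico i0 (i2 + 1)) (Finset.Ico (i2 + 1) (i1 + 1)) := by
    rw [Finset.disjoint_left]
    intro x hx hx'
    rw [Finset.mem_Ico] at hx hx'
    omega
  have hS1 : ∑ i ∈ Finset.Ico i0 (i2 + 1), 2 * (((badF P S b c Xf i).card : ℝ) *
      ((4 : ℝ) ^ i2 / 4 ^ i + 2)) ≤ 6 * (4 : ℝ) ^ i2 * (a0 b c / 200) := by
    calc ∑ i ∈ Finset.Ico i0 (i2 + 1), 2 * (((badF P S b c Xf i).card : ℝ) *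
      ((4 : ℝ) ^ i2 / 4 ^ i + 2)) ≤ ∑ i ∈ Finset.Ico i0 (i2 + 1), 6 * (4 : ℝ) ^ i2 * τ i := by
          apply sum_le_sum
          intro i hi
          rw [Finset.mem_Ico] at hi
          have := hterm i (by omega)
          linarith
      _ = 6 * (4 : ℝ) ^ i2 * ∑ i ∈ Finset.Ico i0 (i2 + 1), τ i := by rw [mul_sum]
      _ ≤ _ := by
        have := hi0 i0 le_rfl (i2 + 1)
        gcongr
  have hS2 : ∑ i ∈ Finset.Ico (i2 + 1) (i1 + 1), 2 * (((badF P S b c Xf i).card : ℝ) *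
      ((4 : ℝ) ^ i2 / 4 ^ i + 2)) ≤ 6 * (4 : ℝ) ^ i2 * (a0 b c / 200) := by
    calc ∑ i ∈ Finset.Ico (i2 + 1) (i1 + 1), 2 * (((badF P S b c Xf i).card : ℝ) *
      ((4 : ℝ) ^ i2 / 4 ^ i + 2)) ≤ ∑ i ∈ Finset.Ico (i2 + 1) (i1 + 1),
          6 * 4 ^ e * (4 : ℝ) ^ i2 * τ i := by
          apply sum_le_sum
          intro i hi
          rw [Finset.mem_Ico] at hi
          have := hterm2 i (by omega) (by omega)
          linarith
      _ = 6 * 4 ^ e * (4 : ℝ) ^ i2 * ∑ i ∈ Finset.Ico (i2 + 1) (i1 + 1), τ i := by rw [mul_sum]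
      _ ≤ 6 * 4 ^ e * (4 : ℝ) ^ i2 * (a0 b c / (200 * 4 ^ e)) := by
        have := hN1 (i2 + 1) (by omega) (i1 + 1)
        gcongr
      _ = _ := by field_simp
  have hbad2 : ((badF P S b c Xf i2).card : ℝ) ≤ (4 : ℝ) ^ i2 * (a0 b c / 200) := by
    have h := hN2 i2 hi2c (i2 + 1)
    rw [Nat.Ico_succ_singleton, sum_singleton] at h
    simp only [hτ] at h
    rw [div_le_iff₀ hfourpos] at h
    linarith
  have hMlow : (4 : ℝ) ^ i2 * (a0 b c / 4) < M + 1 := Nat.lt_floor_add_one _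
  have hfinal : (M : ℝ) ≤ (badF P S b c Xf i2).card +
      ((Finset.Icc i0 i1).biUnion (fun i => A w i ∪ A w' i)).card := by exact_mod_cast hcount
  have hsum2 : ∑ i ∈ Finset.Icc i0 i1, 2 * (((badF P S b c Xf i).card : ℝ) *
      ((4 : ℝ) ^ i2 / 4 ^ i + 2)) = ∑ i ∈ Finset.Ico i0 (i2 + 1), 2 * (((badF P S b c Xf i).card : ℝ) *
      ((4 : ℝ) ^ i2 / 4 ^ i + 2)) + ∑ i ∈ Finset.Ico (i2 + 1) (i1 + 1),
      2 * (((badF P S b c Xf i).card : ℝ) * ((4 : ℝ) ^ i2 / 4 ^ i + 2)) := by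
    rw [hsplit, sum_union hdisj]
  rw [hsum2] at hc2
  have e1 : (4 : ℝ) ^ i2 * (a0 b c / 4) = ((4 : ℝ) ^ i2 * a0 b c) / 4 := by ring
  have e2 : (4 : ℝ) ^ i2 * (a0 b c / 200) = ((4 : ℝ) ^ i2 * a0 b c) / 200 := by ring
  have e3 : 6 * (4 : ℝ) ^ i2 * (a0 b c / 200) = 6 * (((4 : ℝ) ^ i2 * a0 b c) / 200) := by ring
  rw [e1] at hMlow
  rw [e2] at hbad2
  rw [e3] at hS1 hS2
  linarith

end Pool.Agent.Lib.MP_a17b09_nt
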