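import Pool.Agent.Lib.MP_a17b09_nt.Q.Atyp
import Pool.Agent.Lib.MP_a17b09_nt.Q.Rig

set_option autoImplicit false

open Finset

namespace Pool.Agent.Lib.MP_a17b09_nt

/-- Fibre lemma for arbitrary positive determinant. -/
theorem fiber_gen {b c : ℤ} {u v u' v' : ℤ × ℤ} {δ : ℤ} (hδ : 0 < δ) (hu : Sec b c u)
    (hu' : Sec b c u') (hd : det u v = δ) (hd' : det u' v' = δ)
    (hl : lab b c u v = lab b c u' v') (hn : nrm b c u = nrm b c u') :
    ∃ e : ℤ × ℤ, e.1 ∈ Finset.Icc 1 (2 * δ) ∧ e.2 ∈ Finset.Icc (-δ) δ ∧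
      mulp b c e u = (δ * u'.1, δ * u'.2) := by
  set A := nrm b c u with hA
  have hApos : 0 < A := nrm_pos hu
  set e1 : ℤ := v.2 * u'.1 - u.2 * v'.1 with he1
  set e2 : ℤ := v.2 * u'.2 - u.2 * v'.2 with he2
  set R : ℤ := lab b c u u' with hR
  set T : ℤ := det u u' with hT
  have k1 : R * u.1 - c * T * u.2 = A * u'.1 := by
    rw [hR, hT, hA]; simp only [lab, det, nrm]; ring
  have k2 : R * u.2 + T * u.1 + b * T * u.2 = A * u'.2 := by
    rw [hR, hT, hA]; simp only [lab, det, nrm]; ring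
  have hX1 : v.1 * A = lab b c u v * u.1 - c * u.2 * det u v := by
    rw [hA]; simp only [lab, det, nrm]; ring
  have hX2 : v.2 * A = lab b c u v * u.2 + (u.1 + b * u.2) * det u v := by
    rw [hA]; simp only [lab, det, nrm]; ring
  have hX1' : v'.1 * A = lab b c u' v' * u'.1 - c * u'.2 * det u' v' := by
    rw [hn]; simp only [lab, det, nrm]; ring
  have hX2' : v'.2 * A = lab b c u' v' * u'.2 + (u'.1 + b * u'.2) * det u' v' := by
    rw [hn]; simp only [lab, det, nrm]; ring
  rw [hd] at hX1 hX2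
  rw [hd', ← hl] at hX1' hX2'
  set X := lab b c u v with hX
  have k3 : A * (R * v.1 - c * T * v.2) = A * (A * v'.1) := by
    have e : A * (R * v.1 - c * T * v.2) = R * (v.1 * A) - c * T * (v.2 * A) := by ring
    have e' : A * (A * v'.1) = A * (v'.1 * A) := by ring
    rw [e, e', hX1, hX2, hX1']
    linear_combination X * k1 - c * δ * k2
  have k4 : A * (R * v.2 + T * v.1 + b * T * v.2) = A * (A * v'.2) := by
    have e : A * (R * v.2 + T * v.1 + b * T * v.2) = (R + b * T) * (v.2 * A) + T * (v.1 * A) := by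
      ring
    have e' : A * (A * v'.2) = A * (v'.2 * A) := by ring
    rw [e, e', hX1, hX2, hX2']
    linear_combination (X + b * δ) * k2 + δ * k1
  have k3' := mul_left_cancel₀ hApos.ne' k3
  have k4' := mul_left_cancel₀ hApos.ne' k4
  have hRe : δ * R = A * e1 := by
    have h1 : det u v = δ := hd
    simp only [det] at h1
    rw [he1]
    linear_combination (-R) * h1 + v.2 * k1 - u.2 * k3'
  have hTe : δ * T = A * e2 := by
    have h1 : det u v = δ := hd
    simp only [det] at h1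
    rw [he2]
    linear_combination (-T) * h1 + v.2 * k2 - u.2 * k4'
  have hnormρ : nrm b c u * nrm b c u' = R ^ 2 + b * R * T + c * T ^ 2 := by
    rw [nrm_mul_nrm]
  have hnorme : e1 ^ 2 + b * e1 * e2 + c * e2 ^ 2 = δ ^ 2 := by
    have h : A ^ 2 * (e1 ^ 2 + b * e1 * e2 + c * e2 ^ 2) = A ^ 2 * δ ^ 2 := by
      have h2 : A * A = R ^ 2 + b * R * T + c * T ^ 2 := by
        rw [← hnormρ, ← hn]
      have h3 : A ^ 2 * (e1 ^ 2 + b * e1 * e2 + c * e2 ^ 2) =
          (A * e1) ^ 2 + b * (A * e1) * (A * e2) + c * (A * e2) ^ 2 := by ring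
      rw [h3, ← hRe, ← hTe]
      linear_combination (-(δ ^ 2)) * h2
    exact mul_left_cancel₀ (pow_ne_zero 2 hApos.ne') h
  have hRpos : 0 < R := lab_pos hu hu'
  have hRb := (lab_bounds hu hu').1
  have he1pos : 0 < e1 := by
    have : 0 < A * e1 := by rw [← hRe]; positivity
    exact (mul_pos_iff_of_pos_left hApos).1 this
  have hTb : 8 * BB b c * |T| ≤ u.1 * u'.1 := by
    have h1 : 8 * BB b c * (u.1 * u'.2) ≤ u.1 * u'.1 := by
      calc 8 * BB b c * (u.1 * u'.2) = u.1 * (8 * BB b c * u'.2) := by ring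
        _ ≤ u.1 * u'.1 := by
          have := hu'.2.2
          have := hu.1
          gcongr
    have h2 : 8 * BB b c * (u.2 * u'.1) ≤ u.1 * u'.1 := by
      calc 8 * BB b c * (u.2 * u'.1) = (8 * BB b c * u.2) * u'.1 := by ring
        _ ≤ u.1 * u'.1 := by
          have := hu.2.2
          have := hu'.1
          gcongr
    have hBp := BB_pos b c
    have h3 : 0 ≤ u.2 * u'.1 := mul_nonneg hu.2.1 hu'.1.le
    have h4 : 0 ≤ u.1 * u'.2 := mul_nonneg hu.1.le hu'.2.1
    have hTle : |T| ≤ max (u.1 * u'.2) (u.2 * u'.1) := by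
      rw [hT]; simp only [det]
      rw [abs_le]
      constructor
      · have := le_max_right (u.1 * u'.2) (u.2 * u'.1); linarith
      · have := le_max_left (u.1 * u'.2) (u.2 * u'.1); linarith
    rcases le_total (u.1 * u'.2) (u.2 * u'.1) with h | h
    · rw [max_eq_right h] at hTle
      calc 8 * BB b c * |T| ≤ 8 * BB b c * (u.2 * u'.1) := by gcongr
        _ ≤ _ := h2
    · rw [max_eq_left h] at hTle
      calc 8 * BB b c * |T| ≤ 8 * BB b c * (u.1 * u'.2) := by gcongr
        _ ≤ _ := h1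
  have he2 : 6 * BB b c * |e2| ≤ e1 := by
    have h1 : A * (6 * BB b c * |e2|) ≤ A * e1 := by
      have h3 : δ * |T| = A * |e2| := by
        have := congrArg abs hTe
        rw [abs_mul, abs_mul, abs_of_pos hApos, abs_of_pos hδ] at this
        exact this
      rw [← hRe]
      calc A * (6 * BB b c * |e2|) = 6 * BB b c * (A * |e2|) := by ring
        _ = δ * (6 * BB b c * |T|) := by rw [← h3]; ring
        _ ≤ δ * R := by
          have : 6 * BB b c * |T| ≤ R := by linarith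
          gcongr
    exact le_of_mul_le_mul_left h1 hApos
  have hBp := one_le_BB b c
  have hb1 : |b * e1 * e2| * 6 ≤ e1 ^ 2 := by
    rw [abs_mul, abs_mul, abs_of_pos he1pos]
    have := abs_b_le b c
    calc |b| * e1 * |e2| * 6 ≤ BB b c * e1 * |e2| * 6 := by gcongr
      _ = (6 * BB b c * |e2|) * e1 := by ring
      _ ≤ e1 * e1 := by gcongr
      _ = e1 ^ 2 := by ring
  have h6 : 6 * |e2| ≤ e1 := by
    calc 6 * |e2| = 6 * 1 * |e2| := by ring
      _ ≤ 6 * BB b c * |e2| := by gcongr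
      _ ≤ e1 := he2
  have hc1 : |c * e2 ^ 2| * 6 ≤ e1 ^ 2 := by
    rw [abs_mul, abs_pow]
    have := abs_c_le b c
    have h7 : |e2| ≤ e1 := by
      have := abs_nonneg e2
      linarith
    calc |c| * |e2| ^ 2 * 6 ≤ BB b c * |e2| ^ 2 * 6 := by gcongr
      _ = (6 * BB b c * |e2|) * |e2| := by ring
      _ ≤ e1 * e1 := by gcongr
      _ = e1 ^ 2 := by ring
  have h3 := (abs_le.1 (le_refl |b * e1 * e2|)).1
  have h4 := (abs_le.1 (le_refl |c * e2 ^ 2|)).1
  have hsq : 2 * e1 ^ 2 ≤ 3 * δ ^ 2 := by linarith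
  have he1le : e1 ≤ 2 * δ := by
    by_contra hcon
    push Not at hcon
    have : (2 * δ) ^ 2 < e1 ^ 2 := by gcongr
    nlinarith
  have he2le : |e2| ≤ δ := by linarith
  refine ⟨(e1, e2), ?_, ?_, ?_⟩
  · rw [Finset.mem_Icc]; exact ⟨he1pos, he1le⟩
  · rw [Finset.mem_Icc]; exact abs_le.1 he2le
  · have m1 : A * (e1 * u.1 - c * e2 * u.2) = A * (δ * u'.1) := by
      linear_combination (-u.1) * hRe + c * u.2 * hTe + δ * k1
    have m2 : A * (e1 * u.2 + e2 * u.1 + b * e2 * u.2) = A * (δ * u'.2) := by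
      linear_combination (-u.2) * hRe - (u.1 + b * u.2) * hTe + δ * k2
    unfold mulp
    apply Prod.ext
    · exact mul_left_cancel₀ hApos.ne' m1
    · exact mul_left_cancel₀ hApos.ne' m2

/-- few vectors in each fibre -/
theorem fiber_card {b c : ℤ} {δ : ℤ} (hδ : 0 < δ) (t n : ℤ) (U : Finset (ℤ × ℤ))
    (hU : ∀ u ∈ U, Sec b c u ∧ nrm b c u = n ∧ ∃ v, det u v = δ ∧ lab b c u v = t) :
    (U.card : ℤ) ≤ 6 * δ ^ 2 := by
  classical
  rcases U.eq_empty_or_nonempty with rfl | ⟨u0, hu0⟩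
  · simp; positivity
  · obtain ⟨hs0, hn0, v0, hd0, hl0⟩ := hU u0 hu0
    have hex : ∀ u ∈ U, ∃ e : ℤ × ℤ, e.1 ∈ Finset.Icc 1 (2 * δ) ∧ e.2 ∈ Finset.Icc (-δ) δ ∧
        mulp b c e u0 = (δ * u.1, δ * u.2) := by
      intro u hu
      obtain ⟨hs, hn, v, hd, hl⟩ := hU u hu
      exact fiber_gen hδ hs0 hs hd0 hd (hl0.trans hl.symm) (hn0.trans hn.symm)
    choose! e he using hex
    have hcard : U.card ≤ (Finset.Icc 1 (2 * δ) ×ˢ Finset.Icc (-δ) δ).card := by
      apply card_le_card_of_injOn e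
      · intro u hu
        have := he u hu
        rw [mem_coe, mem_product]
        exact ⟨this.1, this.2.1⟩
      · intro u hu u' hu' heq
        have h1 := (he u hu).2.2
        have h2 := (he u' hu').2.2
        rw [heq, h2] at h1
        have h3 := congrArg Prod.fst h1
        have h4 := congrArg Prod.snd h1
        simp only at h3 h4
        exact Prod.ext (mul_left_cancel₀ hδ.ne' h3).symm (mul_left_cancel₀ hδ.ne' h4).symm
    rw [card_product, Int.card_Icc, Int.card_Icc] at hcard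
    have e1 : (((2 * δ + 1 - 1).toNat : ℕ) : ℤ) = 2 * δ := by
      rw [Int.toNat_of_nonneg (by linarith)]; ring
    have e2 : (((δ + 1 - -δ).toNat : ℕ) : ℤ) = 2 * δ + 1 := by
      rw [Int.toNat_of_nonneg (by linarith)]; ring
    have hc : (U.card : ℤ) ≤ (((2 * δ + 1 - 1).toNat : ℕ) : ℤ) * (((δ + 1 - -δ).toNat : ℕ) : ℤ) := by
      exact_mod_cast hcard
    rw [e1, e2] at hc
    nlinarith

end Pool.Agent.Lib.MP_a17b09_nt
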