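import Pool.Agent.Lib.MP_a17b09_nt.Q.Cnt
import Pool.Agent.Lib.MP_a17b09_nt.Misc

set_option autoImplicit false

open Finset Filter

namespace Pool.Agent.Lib.MP_a17b09_nt

/-- sizes of the vectors at scale `i` -/
def Xn (i : ℕ) : ℕ := (i + 1) * 2 ^ i

def Xq (i : ℕ) : ℤ := (Xn i : ℤ)

lemma Xq_mono : Monotone Xq := by
  apply monotone_nat_of_le_succ
  intro i
  unfold Xq Xn
  have : (i + 1) * 2 ^ i ≤ (i + 1 + 1) * 2 ^ (i + 1) :=
    Nat.mul_le_mul (by omega) (Nat.pow_le_pow_right (by norm_num) (by omega))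
  exact_mod_cast this

lemma Xq_growth (h : ℕ) : ∃ e : ℕ, ∀ i, (h : ℤ) * Xq i ≤ Xq (i + e) := by
  refine ⟨h, fun i => ?_⟩
  unfold Xq Xn
  have h1 : h ≤ 2 ^ h := Nat.lt_two_pow_self.le
  have : h * ((i + 1) * 2 ^ i) ≤ (i + h + 1) * 2 ^ (i + h) := by
    calc h * ((i + 1) * 2 ^ i) ≤ 2 ^ h * ((i + h + 1) * 2 ^ i) := by
          gcongr; omega
      _ = _ := by rw [pow_add]; ring
  exact_mod_cast this

/-- the exceptional integers -/
noncomputable def ZZ (P : Set ℕ) (b c : ℤ) (M : ℕ) : Finset ℕ := by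
  classical
  exact (Finset.Icc 1 M).filter (fun t : ℕ => 0 < ff b c t ∧ sgn P (ff b c t) = -1)

lemma mem_ZZ {P : Set ℕ} {b c : ℤ} {M t : ℕ} : t ∈ ZZ P b c M ↔
    (1 ≤ t ∧ t ≤ M) ∧ 0 < ff b c t ∧ sgn P (ff b c t) = -1 := by
  classical
  unfold ZZ
  rw [mem_filter, Finset.mem_Icc]

lemma log_two_X_le (i : ℕ) : 1 + Real.log (2 * (Xn (i + 1) : ℝ)) ≤ 4 * ((i : ℝ) + 1) := by
  unfold Xn
  push_cast
  have h1 : (0 : ℝ) < (i : ℝ) + 1 + 1 := by positivity
  have e : 2 * (((i : ℝ) + 1 + 1) * 2 ^ (i + 1)) = ((i : ℝ) + 1 + 1) * 2 ^ (i + 2) := by ring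
  rw [e, Real.log_mul h1.ne' (by positivity), Real.log_pow]
  have h2 := Real.log_le_sub_one_of_pos h1
  have h3 : Real.log 2 ≤ 1 := by
    have := Real.log_le_sub_one_of_pos (show (0 : ℝ) < 2 by norm_num)
    linarith
  have h4 : ((i + 2 : ℕ) : ℝ) * Real.log 2 ≤ ((i + 2 : ℕ) : ℝ) * 1 := by gcongr
  push_cast at h4 ⊢
  have h5 : (0 : ℝ) ≤ i := by positivity
  linarith

lemma Xn_sq_le (i : ℕ) : (Xn (i + 1) : ℝ) ^ 2 ≤ 16 * ((i : ℝ) + 1) ^ 2 * 4 ^ i := by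
  unfold Xn
  push_cast
  have h5 : (0 : ℝ) ≤ i := by positivity
  calc (((i : ℝ) + 1 + 1) * 2 ^ (i + 1)) ^ 2 ≤ ((2 * ((i : ℝ) + 1)) * 2 ^ (i + 1)) ^ 2 := by
        gcongr; linarith
    _ = 16 * ((i : ℝ) + 1) ^ 2 * (2 ^ i * 2 ^ i) := by ring
    _ = 16 * ((i : ℝ) + 1) ^ 2 * 4 ^ i := by
        rw [← mul_pow]; norm_num

lemma log_two_Xsq_ge (i : ℕ) : ((i : ℝ) + 1) ≤ Real.log ((2 * (Xn (i + 1)) ^ 2 : ℕ) : ℝ) := by
  have h1 : (4 : ℝ) ^ (i + 1) ≤ ((2 * (Xn (i + 1)) ^ 2 : ℕ) : ℝ) := by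
    have : 4 ^ (i + 1) ≤ 2 * (Xn (i + 1)) ^ 2 := by
      unfold Xn
      calc 4 ^ (i + 1) = 1 * (1 * 2 ^ (i + 1)) ^ 2 := by
            rw [one_mul, one_mul, ← pow_mul, mul_comm, pow_mul]
            norm_num
        _ ≤ 2 * ((i + 1 + 1) * 2 ^ (i + 1)) ^ 2 := by
            gcongr
            · norm_num
            · omega
    exact_mod_cast this
  have h2 : (1 : ℝ) ≤ Real.log 4 := by
    rw [Real.le_log_iff_exp_le (by norm_num)]
    have := Real.exp_one_lt_d9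
    linarith
  calc ((i : ℝ) + 1) = ((i : ℝ) + 1) * 1 := by ring
    _ ≤ ((i : ℝ) + 1) * Real.log 4 := by gcongr
    _ = Real.log (4 ^ (i + 1)) := by rw [Real.log_pow]; push_cast; ring
    _ ≤ _ := Real.log_le_log (by positivity) h1

lemma AT_small {b c : ℤ} (hD : ¬ IsSquare (b ^ 2 - 4 * c)) (i : ℕ) :
    ((AT b c (Xn (i + 1)) ((i + 1) ^ 6)).card : ℝ) ≤
      3072 * (b ^ 2 - 4 * c).natAbs * (4 ^ i / ((i : ℝ) + 1) ^ 2) := by
  have hX : 0 < Xn (i + 1) := by unfold Xn; positivity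
  have h := atyp_count hD (Xn (i + 1)) ((i + 1) ^ 6) hX
  have h1 := log_two_X_le i
  have h2 := Xn_sq_le i
  have h0 : (0 : ℝ) ≤ 1 + Real.log (2 * (Xn (i + 1) : ℝ)) := by
    have : (1 : ℝ) ≤ 2 * (Xn (i + 1) : ℝ) := by
      have : (1 : ℝ) ≤ (Xn (i + 1) : ℝ) := by exact_mod_cast hX
      linarith
    have := Real.log_nonneg this
    linarith
  have hn : (0 : ℝ) < (i : ℝ) + 1 := by positivity
  set E : ℝ := ((b ^ 2 - 4 * c).natAbs : ℝ) with hE
  have hE0 : 0 ≤ E := by rw [hE]; positivity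
  have h3 : ((AT b c (Xn (i + 1)) ((i + 1) ^ 6)).card : ℝ) * ((i : ℝ) + 1) ^ 6 ≤
      3072 * E * ((i : ℝ) + 1) ^ 4 * 4 ^ i := by
    have e1 : (((i + 1) ^ 6 : ℕ) : ℝ) = ((i : ℝ) + 1) ^ 6 := by push_cast; rfl
    rw [e1] at h
    calc _ ≤ 12 * E * (Xn (i + 1) : ℝ) ^ 2 * (1 + Real.log (2 * (Xn (i + 1) : ℝ))) ^ 2 := h
      _ ≤ 12 * E * (16 * ((i : ℝ) + 1) ^ 2 * 4 ^ i) * (4 * ((i : ℝ) + 1)) ^ 2 := by gcongr
      _ = _ := by ring
  have h4 : 3072 * E * (4 ^ i / ((i : ℝ) + 1) ^ 2) * ((i : ℝ) + 1) ^ 6 =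
      3072 * E * ((i : ℝ) + 1) ^ 4 * 4 ^ i := by
    field_simp
  rw [← h4] at h3
  exact le_of_mul_le_mul_right h3 (by positivity)

theorem bad_small {P : Set ℕ} {b c : ℤ} (hD : ¬ IsSquare (b ^ 2 - 4 * c)) (M0 : ℕ)
    (hM0 : ∀ M : ℕ, M0 ≤ M → ((ZZ P b c M).card : ℝ) ≤ M / (Real.log M) ^ 16) :
    ∃ C : ℝ, ∀ᶠ i : ℕ in atTop, ((badF P (fun _ => True) b c Xq i).card : ℝ) / 4 ^ i ≤
      C * (1 / ((i + 1 : ℕ) : ℝ) ^ 2) := by
  classical
  set E : ℝ := ((b ^ 2 - 4 * c).natAbs : ℝ) with hE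
  have hE0 : 0 ≤ E := by rw [hE]; positivity
  refine ⟨1024 + 5 * (6144 * E + 192), ?_⟩
  have ha0 := a0_pos b c
  have hev1 : ∀ᶠ i : ℕ in atTop, 4 ≤ (4 : ℝ) ^ i * a0 b c := by
    have ht : Tendsto (fun n : ℕ => (4 : ℝ) ^ n * a0 b c) atTop atTop :=
      (tendsto_pow_atTop_atTop_of_one_lt (by norm_num)).atTop_mul_const ha0
    exact ht.eventually_ge_atTop 4
  filter_upwards [hev1, eventually_ge_atTop M0] with i hi1 hiM0
  have hn : (0 : ℝ) < (i : ℝ) + 1 := by positivity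
  set q : ℝ := (4 : ℝ) ^ i with hq
  have hqpos : 0 < q := by rw [hq]; positivity
  have hfour : ((4 ^ i : ℕ) : ℝ) = q := by rw [hq]; push_cast; rfl
  have hMx : ((Mx b c i : ℕ) : ℝ) + 1 ≤ ((4 ^ i : ℕ) : ℝ) * a0 b c := by
    unfold Mx
    rw [hfour]
    have : ((⌊q * (a0 b c / 2)⌋₊ : ℕ) : ℝ) ≤ q * (a0 b c / 2) := Nat.floor_le (by positivity)
    push_cast
    linarith
  set A := (range (Mx b c i)).filter (fun j => ¬ Pop b c (4 ^ i) (Xn i : ℤ) j) with hA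
  set B := (range (Mx b c i)).filter (fun j => ¬ Mono P b c (4 ^ i) (Xn (i + 1) : ℤ) j) with hB
  have hsub : badF P (fun _ => True) b c Xq i ⊆ A ∪ B := by
    intro j hj
    unfold badF at hj
    rw [mem_filter] at hj
    rw [mem_union, hA, hB, mem_filter, mem_filter]
    by_cases hp : Pop b c (4 ^ i) (Xn i : ℤ) j
    · right
      refine ⟨hj.1, ?_⟩
      intro hm
      apply hj.2
      constructor
      · intro u v hu hv
        exact hm u v hu.2 hv.2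
      · obtain ⟨u, h1, h2, h3, h4⟩ := hp
        exact ⟨u, trivial, h1, h2, h3, h4⟩
    · left; exact ⟨hj.1, hp⟩
  have hcard : ((badF P (fun _ => True) b c Xq i).card : ℝ) ≤ A.card + B.card := by
    exact_mod_cast (card_le_card hsub).trans (card_union_le _ _)
  -- unpopulated
  have hXn : 0 < Xn i := by unfold Xn; positivity
  have hAc : (A.card : ℝ) ≤ 1024 * (q / ((i : ℝ) + 1) ^ 2) := by
    have h := unpop_count (b := b) (c := c) (L := 4 ^ i) (X0 := Xn i) (by positivity) hXn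
      (Mx b c i) hMx A (fun j hj => by
        rw [hA, mem_filter, mem_range] at hj
        exact hj)
    refine h.trans (le_of_eq ?_)
    rw [hfour]
    have e : ((Xn i : ℕ) : ℝ) ^ 2 = ((i : ℝ) + 1) ^ 2 * q := by
      unfold Xn
      push_cast
      rw [mul_pow, ← pow_mul, mul_comm i 2, pow_mul, hq]
      norm_num
    rw [e]
    field_simp
  -- non-monochromatic
  have hex : ∀ j ∈ B, ∃ u v : ℤ × ℤ, det u v = 1 ∧ Win b c (4 ^ i) (Xn (i + 1) : ℤ) j u ∧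
      Win b c (4 ^ i) (Xn (i + 1) : ℤ) j v ∧ col P b c u ≠ col P b c v := by
    intro j hj
    rw [hB, mem_filter] at hj
    exact bad_exists hD hj.2
  choose! u v hdet hwu hwv hcol using hex
  have hj2 : ∀ j ∈ B, (j : ℝ) + 2 ≤ ((4 ^ i : ℕ) : ℝ) * a0 b c := by
    intro j hj
    rw [hB, mem_filter, mem_range] at hj
    have : (j : ℝ) + 1 ≤ (Mx b c i : ℕ) := by exact_mod_cast hj.1
    linarith
  have hgood : ∀ j ∈ B, ∀ w : ℤ × ℤ, Win b c (4 ^ i) (Xn (i + 1) : ℤ) j w → IsCoprime w.1 w.2 →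
      Good b c (4 ^ i) 2 (Xn (i + 1)) j w := by
    intro j hj w hw hc
    refine ⟨sec_of_win (by positivity) (hj2 j hj) hw, hc, hw.2.1, ?_⟩
    rw [abs_le]
    constructor
    · linarith [hw.2.2.1]
    · linarith [hw.2.2.2]
  have hcu : ∀ j ∈ B, IsCoprime (u j).1 (u j).2 := by
    intro j hj
    have h1 := hdet j hj
    simp only [det] at h1
    exact ⟨(v j).2, -(v j).1, by linarith⟩
  have hcv : ∀ j ∈ B, IsCoprime (v j).1 (v j).2 := by
    intro j hj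
    have h1 := hdet j hj
    simp only [det] at h1
    exact ⟨-(u j).2, (u j).1, by linarith⟩
  set M : ℕ := 2 * (Xn (i + 1)) ^ 2 with hM
  have hgc := gen_count (b := b) (c := c) (L := 4 ^ i) (K := 2) (by norm_num) (Xn (i + 1))
    ((i + 1) ^ 6) 1 B u v (fun j hj => hgood j hj _ (hwu j hj) (hcu j hj))
    (fun j hj => hgood j hj _ (hwv j hj) (hcv j hj))
    (fun j hj => by rw [hdet j hj]; norm_num) (ZZ P b c M ×ˢ {1}) (by
      intro j hj
      have hsu := (hgood j hj _ (hwu j hj) (hcu j hj)).sec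
      have hsv := (hgood j hj _ (hwv j hj) (hcv j hj)).sec
      have hlp := lab_pos hsu hsv
      have hcast : (((lab b c (u j) (v j)).toNat : ℕ) : ℤ) = lab b c (u j) (v j) :=
        Int.toNat_of_nonneg hlp.le
      have hff : ff b c (lab b c (u j) (v j)) = nrm b c (u j) * nrm b c (v j) := by
        rw [nrm_mul_nrm, hdet j hj]
        unfold ff
        ring
      have hnu := nrm_pos hsu
      have hnv := nrm_pos hsv
      rw [mem_product, mem_singleton, hdet j hj, mem_ZZ, hcast, hff]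
      refine ⟨⟨⟨by omega, ?_⟩, by positivity, ?_⟩, rfl⟩
      · have h1 := (lab_bounds hsu hsv).2
        have hu1 := (hwu j hj).1
        have hv1 := (hwv j hj).1
        have hu2 := (hwu j hj).2.1
        have hv2 := (hwv j hj).2.1
        have h2 : (u j).1 * (v j).1 ≤ (Xn (i + 1) : ℤ) * (Xn (i + 1) : ℤ) := by
          gcongr
        have h3 : 0 < (u j).1 * (v j).1 := mul_pos hu1 hv1
        zify
        rw [hcast, hM]
        push_cast
        nlinarith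
      · exact sgn_mul_eq_neg_one hnu.ne' hnv.ne' (hcol j hj))
  rw [card_product, card_singleton, mul_one] at hgc
  have hATs := AT_small hD i
  have hMge : M0 ≤ M := by
    rw [hM]
    have h1 : i ≤ Xn (i + 1) := by
      unfold Xn
      calc i ≤ (i + 1 + 1) * 1 := by omega
        _ ≤ (i + 1 + 1) * 2 ^ (i + 1) := by
          gcongr
          exact Nat.one_le_two_pow
    have h2 : Xn (i + 1) ≤ Xn (i + 1) ^ 2 := Nat.le_self_pow (by norm_num) _
    omega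
  have hZc := hM0 M hMge
  have hlog := log_two_Xsq_ge i
  rw [← hM] at hlog
  have hZ2 : ((ZZ P b c M).card : ℝ) ≤ 32 * q / ((i : ℝ) + 1) ^ 14 := by
    refine hZc.trans ?_
    have h1 : (M : ℝ) ≤ 32 * ((i : ℝ) + 1) ^ 2 * q := by
      have := Xn_sq_le i
      rw [hM]
      push_cast
      linarith
    calc (M : ℝ) / (Real.log M) ^ 16 ≤ (32 * ((i : ℝ) + 1) ^ 2 * q) / ((i : ℝ) + 1) ^ 16 := by
          gcongr
      _ = 32 * q / ((i : ℝ) + 1) ^ 14 := by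
          field_simp
  have hBc : (B.card : ℝ) ≤ 5 * (6144 * E + 192) * (q / ((i : ℝ) + 1) ^ 2) := by
    refine hgc.trans ?_
    have e1 : (((i + 1) ^ 6 : ℕ) : ℝ) = ((i : ℝ) + 1) ^ 6 := by push_cast; rfl
    rw [e1]
    calc (2 * 2 + 1) * (2 * ((AT b c (Xn (i + 1)) ((i + 1) ^ 6)).card : ℝ) +
        6 * ((1 : ℕ) : ℝ) ^ 2 * (((i : ℝ) + 1) ^ 6) ^ 2 * ((ZZ P b c M).card : ℝ))
        ≤ (2 * 2 + 1) * (2 * (3072 * E * (q / ((i : ℝ) + 1) ^ 2)) +
          6 * ((1 : ℕ) : ℝ) ^ 2 * (((i : ℝ) + 1) ^ 6) ^ 2 * (32 * q / ((i : ℝ) + 1) ^ 14)) := by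
          gcongr
      _ = _ := by
          push_cast
          field_simp
          ring
  rw [div_le_iff₀ hqpos]
  have e2 : ((i + 1 : ℕ) : ℝ) = (i : ℝ) + 1 := by push_cast; rfl
  rw [e2]
  calc ((badF P (fun _ => True) b c Xq i).card : ℝ) ≤ A.card + B.card := hcard
    _ ≤ 1024 * (q / ((i : ℝ) + 1) ^ 2) + 5 * (6144 * E + 192) * (q / ((i : ℝ) + 1) ^ 2) :=
      add_le_add hAc hBc
    _ = _ := by ring

/-- Main theorem: power-of-logarithm density along a sequence. -/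
theorem log_density {P : Set ℕ} {b c : ℤ} (hD : ¬ IsSquare (b ^ 2 - 4 * c))
    (hex : ∃ δ : ℤ × ℤ, 0 < nrm b c δ ∧ col P b c δ = -1) (M0 : ℕ) :
    ∃ M : ℕ, M0 ≤ M ∧ (M : ℝ) / (Real.log M) ^ 16 < ((ZZ P b c M).card : ℝ) := by
  by_contra hcon
  push Not at hcon
  obtain ⟨C, hC⟩ := bad_small hD M0 hcon
  have hsum : Summable fun i : ℕ => ((badF P (fun _ => True) b c Xq i).card : ℝ) / 4 ^ i := by
    have h1 : Summable fun i : ℕ => C * (1 / ((i + 1 : ℕ) : ℝ) ^ 2) := by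
      apply Summable.mul_left
      exact (summable_nat_add_iff (f := fun n : ℕ => 1 / (n : ℝ) ^ 2) 1).2
        (Real.summable_one_div_nat_pow.2 (by norm_num))
    apply Summable.of_norm_bounded_eventually_nat h1
    filter_upwards [hC] with i hi
    rw [Real.norm_eq_abs, abs_of_nonneg (by positivity)]
    exact hi
  obtain ⟨ε, hε, hrig⟩ := rig hD (S := fun _ => True) (fun _ _ _ _ _ _ => trivial) Xq Xq_mono
    (by unfold Xq; positivity) Xq_growth hsum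
  -- choose a small slope vector
  have ha0 := a0_pos b c
  obtain ⟨K, hK1, hK2, hK3⟩ : ∃ K : ℕ, 8 * BB b c ≤ (K : ℤ) ∧ 8 / (K : ℝ) ≤ a0 b c / 4 ∧ 0 < K := by
    obtain ⟨K1, hK1⟩ := exists_nat_gt (32 / a0 b c)
    have hBp := BB_pos b c
    refine ⟨K1 + (8 * BB b c).toNat + 1, ?_, ?_, by omega⟩
    · push_cast
      rw [Int.toNat_of_nonneg (by positivity)]
      have : (0 : ℤ) ≤ K1 := by positivity
      linarith
    · rw [div_lt_iff₀ ha0] at hK1
      have h1 : (K1 : ℝ) ≤ ((K1 + (8 * BB b c).toNat + 1 : ℕ) : ℝ) := by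
        exact_mod_cast (by omega : K1 ≤ K1 + (8 * BB b c).toNat + 1)
      have h2 : (0 : ℝ) < ((K1 + (8 * BB b c).toNat + 1 : ℕ) : ℝ) := by positivity
      rw [div_le_iff₀ h2]
      nlinarith
  obtain ⟨R, S, hR, hS, -, hKS, hcol⟩ := exists_delta_of hD 1 (by
    obtain ⟨δ, h1, h2⟩ := hex
    exact ⟨δ, h1, one_dvd _, h2⟩) (K : ℤ) (by exact_mod_cast hK3)
  obtain ⟨m, hm⟩ := exists_nat_gt (8 / (ε * R))
  have hRr : (0 : ℝ) < R := by exact_mod_cast hR
  have hmpos : 0 < m := by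
    have : (0 : ℝ) < m := lt_of_le_of_lt (by positivity) hm
    exact_mod_cast this
  obtain ⟨y, hy0, hyS, hyc⟩ := exists_step (b := b) (c := c) (J := 1) one_pos hR hS (one_dvd _)
    hD hcol m hmpos
  have hmz : (0 : ℤ) < m := by exact_mod_cast hmpos
  have hKr : (0 : ℝ) < K := by exact_mod_cast hK3
  have key : ∀ z : ℤ, 0 ≤ z → z ≤ m * S → Sec b c (m * R, z) ∧ ang b c (m * R, z) ≤ a0 b c / 4 := by
    intro z hz hz2
    have hKz : (K : ℤ) * z ≤ m * R := by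
      calc (K : ℤ) * z ≤ K * (m * S) := by gcongr
        _ = m * (K * S) := by ring
        _ ≤ m * R := by gcongr
    refine ⟨⟨by positivity, hz, ?_⟩, ?_⟩
    · simp only
      calc 8 * BB b c * z ≤ K * z := by gcongr
        _ ≤ _ := hKz
    · have hsl : slope ((m * R : ℤ), z) ≤ 1 / (K : ℝ) := by
        unfold slope
        have h1 : (0 : ℝ) < ((m * R : ℤ) : ℝ) := by exact_mod_cast (mul_pos hmz hR)
        rw [div_le_div_iff₀ h1 hKr, one_mul]
        have : ((K : ℤ) : ℝ) * z ≤ ((m * R : ℤ) : ℝ) := by exact_mod_cast hKz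
        rw [mul_comm]
        exact_mod_cast this
      have hsl0 : 0 ≤ slope ((m * R : ℤ), z) := by
        unfold slope
        have h1 : (0 : ℝ) < ((m * R : ℤ) : ℝ) := by exact_mod_cast (mul_pos hmz hR)
        have h2 : (0 : ℝ) ≤ (z : ℝ) := by exact_mod_cast hz
        positivity
      have h := ang_le_slope b c hsl0
      refine h.trans (le_trans ?_ hK2)
      calc 8 * slope ((m * R : ℤ), z) ≤ 8 * (1 / (K : ℝ)) := by gcongr
        _ = 8 / (K : ℝ) := by ring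
  obtain ⟨s1, a1⟩ := key y hy0 (by push_cast at hyS; linarith)
  obtain ⟨s2, a2⟩ := key (y + (1 : ℕ)) (by positivity) hyS
  have hclose : |ang b c (m * R, y) - ang b c (m * R, y + (1 : ℕ))| ≤ ε := by
    have h := AA_lipschitz (b : ℝ) (c : ℝ) (slope ((m * R : ℤ), y + (1 : ℕ))) (slope ((m * R : ℤ), y))
    unfold ang
    refine h.trans ?_
    have hmR : (0 : ℝ) < (m : ℝ) * R := by
      have : (0 : ℝ) < m := by exact_mod_cast hmpos
      positivity
    have e : slope ((m * R : ℤ), y) - slope ((m * R : ℤ), y + (1 : ℕ)) = -(1 / ((m : ℝ) * R)) := by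
      unfold slope
      push_cast
      field_simp
      ring
    rw [e, abs_neg, abs_of_pos (by positivity)]
    rw [div_lt_iff₀ (by positivity)] at hm
    rw [mul_one_div, div_le_iff₀ hmR]
    calc (8 : ℝ) ≤ m * (ε * R) := hm.le
      _ = ε * (m * R) := by ring
  have heq := hrig _ _ s1 s2 trivial trivial a1 a2 hclose
  rw [heq] at hyc
  rcases col_eq_or P b c (m * R, y + (1 : ℕ)) with h | h <;> rw [h] at hyc <;> norm_num at hyc

end Pool.Agent.Lib.MP_a17b09_nt
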